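/-
Groups of bounded exponent acting with Schreier graphs of degree at most two: definitions.
-/
import Mathlib

set_option autoImplicit false

open scoped Pointwise

namespace Pool.Agent.SCH

/-- Dirichlet energy of `f` at the point `x` (left multiplication by the finite set `S`). -/
def En {G : Type*} [Group G] (S : Finset G) (f : G → ℝ) (x : G) : ℝ :=
  ∑ s ∈ S, (f (s * x) - f x) ^ 2

/-- `f` is harmonic for left multiplication by the finite set `S`. -/
def Harm {G : Type*} [Group G] (S : Finset G) (f : G → ℝ) : Prop :=
  ∀ x : G, ∑ s ∈ S, (f (s * x) - f x) = 0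

theorem En_nonneg {G : Type*} [Group G] (S : Finset G) (f : G → ℝ) (x : G) : 0 ≤ En S f x :=
  Finset.sum_nonneg fun _ _ => sq_nonneg _

end Pool.Agent.SCH
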