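/-
The maximal cycle trick.
-/
import Pool.Agent.Lib.SCH.Defs

set_option autoImplicit false

namespace Pool.Agent.SCH

/-- If `f` fixes all points of a cycle of `g` except one, which it moves, then `g * f` has a longer
cycle (or an infinite one). -/
theorem cyc {X : Type*} (g f : Equiv.Perm X) (x : X) (L : ℕ) (hL : Function.minimalPeriod g x = L)
    (hL0 : 0 < L) (hf : ∀ i, 0 < i → i < L → f ((g ^ i) x) = (g ^ i) x) (hfx : f x ≠ x) :
    Function.minimalPeriod (g * f : Equiv.Perm X) (g x) = 0 ∨
      L < Function.minimalPeriod (g * f : Equiv.Perm X) (g x) := by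
  classical
  have hit : ∀ (p : Equiv.Perm X) (i : ℕ) (y : X), (p ^ i) y = p^[i] y := fun p i y => by
    rw [Equiv.Perm.iterate_eq_pow]
  have hinj : ∀ i j, i < L → j < L → (g ^ i) x = (g ^ j) x → i = j := by
    intro i j hi hj h
    rw [hit, hit] at h
    rw [← hL] at hi hj
    exact (Function.iterate_eq_iterate_iff_of_lt_minimalPeriod hi hj).1 h
  have hper : (g ^ L) x = x := by
    rw [hit, ← hL]
    exact Function.iterate_minimalPeriod
  have hstep : ∀ i, i < L → ((g * f) ^ i) (g x) = (g ^ (i + 1)) x := by
    intro i
    induction i with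
    | zero => intro _; simp
    | succ i ih =>
      intro hi
      rw [pow_succ', Equiv.Perm.mul_apply, ih (by omega), Equiv.Perm.mul_apply,
        hf (i + 1) (by omega) hi, ← Equiv.Perm.mul_apply, ← pow_succ']
  rcases Nat.eq_zero_or_pos (Function.minimalPeriod (g * f : Equiv.Perm X) (g x)) with h | h
  · exact Or.inl h
  · refine Or.inr ?_
    by_contra hle
    push Not at hle
    set m := Function.minimalPeriod (g * f : Equiv.Perm X) (g x) with hm
    have hmp : ((g * f) ^ m) (g x) = g x := by
      rw [hit, hm]
      exact Function.iterate_minimalPeriod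
    rcases lt_or_eq_of_le hle with hlt | heq
    · rw [hstep m hlt] at hmp
      have e1 : (g ^ (m + 1)) x = (g ^ 1) x := by simpa using hmp
      by_cases hm1 : m + 1 < L
      · have hL1 : 1 < L := by omega
        have := hinj (m + 1) 1 hm1 hL1 e1
        omega
      · have hmL : m + 1 = L := by omega
        rw [hmL, hper] at e1
        have e2 : (g ^ 0) x = (g ^ 1) x := by simpa using e1
        have hL1 : 1 < L := by omega
        have := hinj 0 1 hL0 hL1 e2
        omega
    · have hL1 : L - 1 < L := by omega
      have e1 := hstep (L - 1) hL1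
      have e2 : L - 1 + 1 = L := by omega
      rw [e2, hper] at e1
      rw [heq, ← e2, pow_succ', Equiv.Perm.mul_apply, e1, Equiv.Perm.mul_apply] at hmp
      exact hfx (g.injective hmp)

end Pool.Agent.SCH
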