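/-
Line systems: finitely many permutations of the integers with displacement at most one which generate
a transitive group of exponent `n`.
-/
import Pool.Agent.Lib.SCH.Cyc

set_option autoImplicit false

namespace Pool.Agent.SCH

/-- the element of a word -/
def wd {X ι : Type*} (τ : ι → Equiv.Perm X) (w : List ι) : Equiv.Perm X := (w.map τ).prod

theorem wd_nil {X ι : Type*} (τ : ι → Equiv.Perm X) : wd τ [] = 1 := by simp [wd]

theorem wd_cons {X ι : Type*} (τ : ι → Equiv.Perm X) (s : ι) (w : List ι) :
    wd τ (s :: w) = τ s * wd τ w := by simp [wd]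

theorem wd_append {X ι : Type*} (τ : ι → Equiv.Perm X) (v w : List ι) :
    wd τ (v ++ w) = wd τ v * wd τ w := by simp [wd]

theorem wd_singleton {X ι : Type*} (τ : ι → Equiv.Perm X) (s : ι) : wd τ [s] = τ s := by simp [wd]

/-- the `k`-th power of a word -/
def wpow {ι : Type*} (w : List ι) : ℕ → List ι
  | 0 => []
  | k + 1 => w ++ wpow w k

theorem wd_wpow {X ι : Type*} (τ : ι → Equiv.Perm X) (w : List ι) (k : ℕ) :
    wd τ (wpow w k) = wd τ w ^ k := by
  induction k with
  | zero => simp [wpow, wd_nil]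
  | succ k ih => rw [wpow, wd_append, ih, pow_succ']

theorem length_wpow {ι : Type*} (w : List ι) (k : ℕ) : (wpow w k).length = k * w.length := by
  induction k with
  | zero => simp [wpow]
  | succ k ih => rw [wpow, List.length_append, ih]; ring

/-- A line system of exponent `n`. -/
structure LineSys {ι : Type*} (n : ℕ) (τ : ι → Equiv.Perm ℤ) : Prop where
  disp : ∀ s i, |τ s i - i| ≤ 1
  up : ∀ i, ∃ s, τ s i = i + 1
  exp : ∀ w : List ι, wd τ w ^ n = 1

theorem up_iter (p : Equiv.Perm ℤ) (hd : ∀ i, |p i - i| ≤ 1) (i : ℤ) (h0 : p i = i + 1)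
    (h1 : p (i + 1) ≠ i) (k : ℕ) : p (i + k) = i + k + 1 := by
  induction k using Nat.strong_induction_on with
  | _ k ih =>
    rcases Nat.eq_zero_or_pos k with hk | hk
    · subst hk; simpa using h0
    · have hprev := ih (k - 1) (by omega)
      have e1 : (i + ((k - 1 : ℕ) : ℤ) + 1) = i + k := by
        have : ((k - 1 : ℕ) : ℤ) = (k : ℤ) - 1 := by omega
        rw [this]; ring
      rw [e1] at hprev
      have hd1 := abs_le.1 (hd (i + k))
      have hne : p (i + k) ≠ i + k := by
        intro h
        have := p.injective (h.trans hprev.symm)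
        omega
      have hne2 : p (i + k) ≠ i + k - 1 := by
        intro h
        by_cases hk1 : k = 1
        · subst hk1
          apply h1
          rw [Nat.cast_one] at h
          rw [h]; ring
        · have hprev2 := ih (k - 2) (by omega)
          have e2 : (i + ((k - 2 : ℕ) : ℤ) + 1) = i + k - 1 := by
            have : ((k - 2 : ℕ) : ℤ) = (k : ℤ) - 2 := by omega
            rw [this]; ring
          rw [e2] at hprev2
          have := p.injective (h.trans hprev2.symm)
          omega
      have h3 := hd1.1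
      have h4 := hd1.2
      omega

theorem down_iter (p : Equiv.Perm ℤ) (hd : ∀ i, |p i - i| ≤ 1) (i : ℤ) (h0 : p i = i - 1)
    (h1 : p (i - 1) ≠ i) (k : ℕ) : p (i - k) = i - k - 1 := by
  let q : Equiv.Perm ℤ := (Equiv.neg ℤ).trans (p.trans (Equiv.neg ℤ))
  have hq : ∀ j, q j = - p (-j) := fun j => rfl
  have := up_iter q (fun j => by
    rw [hq]
    have := abs_le.1 (hd (-j))
    rw [abs_le]; constructor <;> linarith [this.1, this.2]) (-i) (by rw [hq, neg_neg, h0]; ring)
    (by
      rw [hq]
      have e : -(-i + 1) = i - 1 := by ring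
      rw [e]
      intro h
      exact h1 (by linarith)) k
  rw [hq] at this
  have e : -(-i + (k : ℤ)) = i - k := by ring
  rw [e] at this
  linarith

namespace LineSys

variable {ι : Type*} {n : ℕ} {τ : ι → Equiv.Perm ℤ}

theorem gen_pow (h : LineSys n τ) (s : ι) : τ s ^ n = 1 := by
  have := h.exp [s]
  rwa [wd_singleton] at this

theorem invol_up (h : LineSys n τ) (hn : 0 < n) (s : ι) (i : ℤ) (h0 : τ s i = i + 1) :
    τ s (i + 1) = i := by
  by_contra h1
  have hit := up_iter (τ s) (h.disp s) i h0 h1
  have hpow : ∀ k : ℕ, (τ s ^ k) i = i + k := by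
    intro k
    induction k with
    | zero => simp
    | succ k ih => rw [pow_succ', Equiv.Perm.mul_apply, ih, hit]; push_cast; ring
  have h2 := hpow n
  rw [h.gen_pow s] at h2
  simp at h2
  omega

theorem invol_down (h : LineSys n τ) (hn : 0 < n) (s : ι) (i : ℤ) (h0 : τ s i = i - 1) :
    τ s (i - 1) = i := by
  by_contra h1
  have hit := down_iter (τ s) (h.disp s) i h0 h1
  have hpow : ∀ k : ℕ, (τ s ^ k) i = i - k := by
    intro k
    induction k with
    | zero => simp
    | succ k ih => rw [pow_succ', Equiv.Perm.mul_apply, ih, hit]; push_cast; ring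
  have h2 := hpow n
  rw [h.gen_pow s] at h2
  simp at h2
  omega

theorem cases (h : LineSys n τ) (s : ι) (i : ℤ) : τ s i = i ∨ τ s i = i + 1 ∨ τ s i = i - 1 := by
  have := abs_le.1 (h.disp s i)
  have h1 := this.1
  have h2 := this.2
  omega

theorem invol (h : LineSys n τ) (hn : 0 < n) (s : ι) (i : ℤ) : τ s (τ s i) = i := by
  rcases h.cases s i with h1 | h1 | h1
  · rw [h1, h1]
  · rw [h1]; exact h.invol_up hn s i h1
  · rw [h1]; exact h.invol_down hn s i h1

theorem mul_self (h : LineSys n τ) (hn : 0 < n) (s : ι) : τ s * τ s = 1 :=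
  Equiv.ext fun i => h.invol hn s i

theorem down (h : LineSys n τ) (hn : 0 < n) (i : ℤ) : ∃ s, τ s i = i - 1 := by
  obtain ⟨s, hs⟩ := h.up (i - 1)
  refine ⟨s, ?_⟩
  have := h.invol_up hn s (i - 1) hs
  rwa [sub_add_cancel] at this

theorem period_pos (h : LineSys n τ) (hn : 0 < n) (w : List ι) (c : ℤ) :
    0 < Function.minimalPeriod (wd τ w) c := by
  refine Function.IsPeriodicPt.minimalPeriod_pos hn ?_
  have := h.exp w
  change (wd τ w)^[n] c = c
  rw [Equiv.Perm.iterate_eq_pow, this]
  rfl

theorem period_le (h : LineSys n τ) (hn : 0 < n) (w : List ι) (c : ℤ) :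
    Function.minimalPeriod (wd τ w) c ≤ n := by
  refine Function.IsPeriodicPt.minimalPeriod_le hn ?_
  have := h.exp w
  change (wd τ w)^[n] c = c
  rw [Equiv.Perm.iterate_eq_pow, this]
  rfl

/-- the reflected line system -/
theorem refl (h : LineSys n τ) (hn : 0 < n) :
    LineSys n (fun s => (Equiv.neg ℤ).trans ((τ s).trans (Equiv.neg ℤ))) := by
  have hw : ∀ w : List ι, wd (fun s => (Equiv.neg ℤ).trans ((τ s).trans (Equiv.neg ℤ))) w =
      (Equiv.neg ℤ).trans ((wd τ w).trans (Equiv.neg ℤ)) := by
    intro w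
    induction w with
    | nil => ext i; simp [wd_nil]
    | cons s w ih =>
      ext i
      rw [wd_cons, ih, wd_cons]
      simp
  refine ⟨fun s i => ?_, fun i => ?_, fun w => ?_⟩
  · have := abs_le.1 (h.disp s (-i))
    simp only [Equiv.trans_apply, Equiv.neg_apply]
    rw [abs_le]; constructor <;> linarith [this.1, this.2]
  · obtain ⟨s, hs⟩ := h.down hn (-i)
    refine ⟨s, ?_⟩
    simp only [Equiv.trans_apply, Equiv.neg_apply]
    rw [hs]; ring
  · rw [hw]
    have hp : ∀ k : ℕ, ((Equiv.neg ℤ).trans ((wd τ w).trans (Equiv.neg ℤ)) : Equiv.Perm ℤ) ^ k =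
        (Equiv.neg ℤ).trans ((wd τ w ^ k).trans (Equiv.neg ℤ)) := by
      intro k
      induction k with
      | zero => ext i; simp
      | succ k ih =>
        rw [pow_succ', ih, pow_succ']
        ext i
        simp
    rw [hp, h.exp]
    ext i; simp

end LineSys

theorem wd_refl {ι : Type*} (τ : ι → Equiv.Perm ℤ) (w : List ι) :
    wd (fun s => ((Equiv.neg ℤ).trans ((τ s).trans (Equiv.neg ℤ)) : Equiv.Perm ℤ)) w =
      (Equiv.neg ℤ).trans ((wd τ w).trans (Equiv.neg ℤ)) := by
  induction w with
  | nil => ext i; simp [wd_nil]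
  | cons s w ih =>
    ext i
    rw [wd_cons, ih, wd_cons]
    simp

end Pool.Agent.SCH
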