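/-
Ultralimits of windows.
-/
import Pool.Agent.Lib.SCH.Line

set_option autoImplicit false

namespace Pool.Agent.SCH

/-- `p` is a window of radius `K` with labels `δ`. -/
structure Win {X ι : Type*} (σ : ι → Equiv.Perm X) (p : ℤ → X) (δ : ι → ℤ → ℤ) (K : ℕ) : Prop where
  inj : ∀ i j : ℤ, |i| ≤ (K : ℤ) → |j| ≤ (K : ℤ) → p i = p j → i = j
  step : ∀ (s : ι) (i : ℤ), |i| < (K : ℤ) → |δ s i| ≤ 1 ∧ σ s (p i) = p (i + δ s i)
  up : ∀ i : ℤ, |i| < (K : ℤ) → ∃ s, δ s i = 1

/-- the map of a word -/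
def wf {ι : Type*} (T : ι → ℤ → ℤ) : List ι → ℤ → ℤ
  | [], i => i
  | s :: w, i => T s (wf T w i)

theorem wf_append {ι : Type*} (T : ι → ℤ → ℤ) (v w : List ι) (i : ℤ) :
    wf T (v ++ w) i = wf T v (wf T w i) := by
  induction v with
  | nil => rfl
  | cons s v ih => rw [List.cons_append, wf, ih, wf]

theorem wf_wpow {ι : Type*} (T : ι → ℤ → ℤ) (w : List ι) (k : ℕ) (i : ℤ) :
    wf T (wpow w k) i = (wf T w)^[k] i := by
  induction k with
  | zero => rfl
  | succ k ih => rw [wpow, wf_append, ih, Function.iterate_succ_apply']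

theorem wd_eq_wf {ι : Type*} (τ : ι → Equiv.Perm ℤ) (w : List ι) (i : ℤ) :
    wd τ w i = wf (fun s => τ s) w i := by
  induction w with
  | nil => simp [wd_nil, wf]
  | cons s w ih => rw [wd_cons, Equiv.Perm.mul_apply, ih, wf]

/-- transfer along a window on which the labels agree -/
theorem transfer {X ι : Type*} {σ : ι → Equiv.Perm X} {p : ℤ → X} {δ : ι → ℤ → ℤ} {K R : ℕ}
    (hW : Win σ p δ K) (T : ι → ℤ → ℤ) (hT : ∀ s i, |i| ≤ (R : ℤ) → T s i = i + δ s i) (hRK : R < K)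
    (w : List ι) (i : ℤ) (hi : |i| + w.length ≤ (R : ℤ)) :
    wd σ w (p i) = p (wf T w i) ∧ |wf T w i| ≤ |i| + w.length := by
  induction w with
  | nil => simp [wd_nil, wf]
  | cons s w ih =>
    rw [List.length_cons] at hi
    push_cast at hi
    obtain ⟨h1, h2⟩ := ih (by linarith)
    have h3 : |wf T w i| ≤ (R : ℤ) := by linarith
    have h4 : |wf T w i| < (K : ℤ) := by
      have : (R : ℤ) < K := by exact_mod_cast hRK
      linarith
    obtain ⟨h5, h6⟩ := hW.step s (wf T w i) h4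
    rw [wd_cons, Equiv.Perm.mul_apply, h1, h6, wf, hT s _ h3]
    refine ⟨rfl, ?_⟩
    rw [List.length_cons]
    push_cast
    have := abs_add_le (wf T w i) (δ s (wf T w i))
    linarith

open Filter in
/-- ultralimit of windows -/
theorem limit {X ι : Type*} [Finite ι] (σ : ι → Equiv.Perm X) {n : ℕ} (hn : 0 < n)
    (hexp : ∀ w : List ι, wd σ w ^ n = 1) (p : ℕ → ℤ → X) (δ : ℕ → ι → ℤ → ℤ)
    (hW : ∀ K, Win σ (p K) (δ K) K) :
    ∃ τ : ι → Equiv.Perm ℤ, LineSys n τ ∧
      ∀ R m : ℕ, ∃ K, m ≤ K ∧ ∀ s i, |i| ≤ (R : ℤ) → τ s i = i + δ K s i := by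
  classical
  let U : Ultrafilter ℕ := Filter.hyperfilter ℕ
  have hUle : (U : Filter ℕ) ≤ Filter.atTop := by
    have := Filter.hyperfilter_le_cofinite (α := ℕ)
    rwa [Nat.cofinite_eq_atTop] at this
  have hge : ∀ m : ℕ, ∀ᶠ K in (U : Filter ℕ), m ≤ K := fun m =>
    hUle (Filter.eventually_ge_atTop m)
  have hlim : ∀ s i, ∃ v : ℤ, |v| ≤ 1 ∧ ∀ᶠ K in (U : Filter ℕ), δ K s i = v := by
    intro s i
    have h1 : ∀ᶠ K in (U : Filter ℕ), δ K s i = -1 ∨ δ K s i = 0 ∨ δ K s i = 1 := by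
      filter_upwards [hge (i.natAbs + 1)] with K hK
      have h2 := ((hW K).step s i (by rw [Int.abs_eq_natAbs]; omega)).1
      have h3 := abs_le.1 h2
      have h4 := h3.1
      have h5 := h3.2
      omega
    rcases Ultrafilter.eventually_or.1 h1 with h2 | h2
    · exact ⟨-1, by norm_num, h2⟩
    rcases Ultrafilter.eventually_or.1 h2 with h3 | h3
    · exact ⟨0, by norm_num, h3⟩
    · exact ⟨1, by norm_num, h3⟩
  choose d hd1 hd2 using hlim
  have hagree : ∀ R : ℕ, ∀ᶠ K in (U : Filter ℕ), ∀ s i, |i| ≤ (R : ℤ) → d s i = δ K s i := by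
    intro R
    refine Filter.eventually_all.2 fun s => ?_
    have hfin : (Set.Icc (-(R : ℤ)) R).Finite := Set.finite_Icc _ _
    have := (Filter.eventually_all_finite (l := (U : Filter ℕ))
      (p := fun i K => d s i = δ K s i) hfin).2 (fun i _ => by
        filter_upwards [hd2 s i] with K hK
        exact hK.symm)
    filter_upwards [this] with K hK i hi
    exact hK i (abs_le.1 hi)
  let T : ι → ℤ → ℤ := fun s i => i + d s i
  have hgood : ∀ R m : ℕ, ∃ K, m ≤ K ∧ R < K ∧ ∀ s i, |i| ≤ (R : ℤ) → T s i = i + δ K s i := by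
    intro R m
    obtain ⟨K, h1, h2, h3⟩ := ((hagree R).and ((hge m).and (hge (R + 1)))).exists
    exact ⟨K, h2, h3, fun s i hi => by rw [← h1 s i hi]⟩
  have hTexp : ∀ (w : List ι) (i : ℤ), (wf T w)^[n] i = i := by
    intro w i
    rw [← wf_wpow]
    obtain ⟨K, _, h2, h3⟩ := hgood (i.natAbs + (wpow w n).length) 0
    have hi : |i| + ((wpow w n).length : ℤ) ≤ ((i.natAbs + (wpow w n).length : ℕ) : ℤ) := by
      push_cast; simp
    obtain ⟨h4, h5⟩ := transfer (hW K) T h3 h2 (wpow w n) i hi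
    rw [wd_wpow, hexp] at h4
    refine ((hW K).inj _ _ ?_ ?_ ?_)
    · have : ((i.natAbs + (wpow w n).length : ℕ) : ℤ) < K := by exact_mod_cast h2
      linarith
    · have : ((i.natAbs + (wpow w n).length : ℕ) : ℤ) < K := by exact_mod_cast h2
      have h6 : (0 : ℤ) ≤ ((wpow w n).length : ℤ) := by positivity
      linarith
    · simpa using h4.symm
  have hTs : ∀ s i, (T s)^[n] i = i := by
    intro s i
    have := hTexp [s] i
    exact this
  have hbij : ∀ s, Function.Bijective (T s) := by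
    intro s
    obtain ⟨m, rfl⟩ : ∃ m, n = m + 1 := ⟨n - 1, by omega⟩
    refine ⟨fun i j hij => ?_, fun i => ⟨(T s)^[m] i, ?_⟩⟩
    · rw [← hTs s i, ← hTs s j, Function.iterate_succ_apply, Function.iterate_succ_apply, hij]
    · rw [← Function.iterate_succ_apply' (T s) m i]
      exact hTs s i
  let τ : ι → Equiv.Perm ℤ := fun s => Equiv.ofBijective (T s) (hbij s)
  have hτ : ∀ s i, τ s i = T s i := fun s i => rfl
  have hwd : ∀ w i, wd τ w i = wf T w i := fun w i => wd_eq_wf τ w i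
  refine ⟨τ, ⟨fun s i => ?_, fun i => ?_, fun w => ?_⟩, fun R m => ?_⟩
  · rw [hτ]
    change |i + d s i - i| ≤ 1
    rw [add_sub_cancel_left]; exact hd1 s i
  · have h1 : ∀ᶠ K in (U : Filter ℕ), ∃ s, δ K s i = 1 := by
      filter_upwards [hge (i.natAbs + 1)] with K hK
      exact (hW K).up i (by rw [Int.abs_eq_natAbs]; omega)
    obtain ⟨K, hK1, hK2⟩ := (h1.and (hagree i.natAbs)).exists
    obtain ⟨s, hs⟩ := hK1
    refine ⟨s, ?_⟩
    rw [hτ]
    change i + d s i = i + 1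
    rw [hK2 s i (by simp), hs]
  · ext i
    have h1 : (wd τ w ^ n) i = (wf T w)^[n] i := by
      rw [← Equiv.Perm.iterate_eq_pow]
      have h2 : ∀ k, (wd τ w)^[k] i = (wf T w)^[k] i := by
        intro k
        induction k with
        | zero => rfl
        | succ k ih => rw [Function.iterate_succ_apply', Function.iterate_succ_apply', ih, hwd]
      exact h2 n
    rw [h1, hTexp]; rfl
  · obtain ⟨K, h1, _, h3⟩ := hgood R m
    exact ⟨K, h1, fun s i hi => by rw [hτ]; exact h3 s i hi⟩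

end Pool.Agent.SCH
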