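/-
The group of a rigid line system: generators, polynomial growth, the harmonic position function.
-/
import Pool.Agent.Lib.SCH.Line

set_option autoImplicit false

open scoped Pointwise

namespace Pool.Agent.SCH

variable {ι : Type*} {n : ℕ} {τ : ι → Equiv.Perm ℤ}

/-- the group of a line system -/
abbrev LG (τ : ι → Equiv.Perm ℤ) : Subgroup (Equiv.Perm ℤ) := Subgroup.closure (Set.range τ)

theorem wd_mem (τ : ι → Equiv.Perm ℤ) (w : List ι) : wd τ w ∈ LG τ := by
  induction w with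
  | nil => rw [wd_nil]; exact Subgroup.one_mem _
  | cons s w ih => rw [wd_cons]; exact Subgroup.mul_mem _ (Subgroup.subset_closure ⟨s, rfl⟩) ih

theorem exists_wd (h : LineSys n τ) (hn : 0 < n) (g : LG τ) : ∃ w, (g : Equiv.Perm ℤ) = wd τ w := by
  obtain ⟨g, hg⟩ := g
  change ∃ w, g = wd τ w
  induction hg using Subgroup.closure_induction with
  | mem x hx =>
    obtain ⟨s, rfl⟩ := hx
    exact ⟨[s], (wd_singleton τ s).symm⟩
  | one => exact ⟨[], (wd_nil τ).symm⟩
  | mul x y hx hy ihx ihy =>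
    obtain ⟨v, rfl⟩ := ihx
    obtain ⟨w, rfl⟩ := ihy
    exact ⟨v ++ w, (wd_append τ v w).symm⟩
  | inv x hx ih =>
    obtain ⟨w, rfl⟩ := ih
    refine ⟨w.reverse, ?_⟩
    have : ∀ w : List ι, wd τ w * wd τ w.reverse = 1 := by
      intro w
      induction w with
      | nil => simp [wd_nil]
      | cons s w ih =>
        rw [List.reverse_cons, wd_cons, wd_append, wd_singleton]
        calc τ s * wd τ w * (wd τ w.reverse * τ s) = τ s * (wd τ w * wd τ w.reverse) * τ s := by group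
          _ = 1 := by rw [ih, mul_one, h.mul_self hn]
    exact inv_eq_of_mul_eq_one_right (this w)

/-- the generators, as elements of the group -/
def gen (τ : ι → Equiv.Perm ℤ) (s : ι) : LG τ := ⟨τ s, Subgroup.subset_closure ⟨s, rfl⟩⟩

open Classical in
/-- the finite symmetric generating set, with `1` -/
noncomputable def gS [Fintype ι] (τ : ι → Equiv.Perm ℤ) : Finset (LG τ) :=
  insert 1 (Finset.univ.image (gen τ))

open Classical in
theorem mem_gS [Fintype ι] {g : LG τ} : g ∈ gS τ ↔ g = 1 ∨ ∃ s, g = gen τ s := by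
  unfold gS
  rw [Finset.mem_insert, Finset.mem_image]
  constructor
  · rintro (h | ⟨s, _, rfl⟩)
    · exact Or.inl h
    · exact Or.inr ⟨s, rfl⟩
  · rintro (h | ⟨s, rfl⟩)
    · exact Or.inl h
    · exact Or.inr ⟨s, Finset.mem_univ _, rfl⟩

theorem one_mem_gS [Fintype ι] : (1 : LG τ) ∈ gS τ := mem_gS.2 (Or.inl rfl)

theorem gS_mul_self [Fintype ι] (h : LineSys n τ) (hn : 0 < n) {g : LG τ} (hg : g ∈ gS τ) :
    g * g = 1 := by
  rcases mem_gS.1 hg with rfl | ⟨s, rfl⟩
  · simp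
  · exact Subtype.ext (h.mul_self hn s)

theorem inv_mem_gS [Fintype ι] (h : LineSys n τ) (hn : 0 < n) {g : LG τ} (hg : g ∈ gS τ) :
    g⁻¹ ∈ gS τ := by
  have := gS_mul_self h hn hg
  rw [inv_eq_of_mul_eq_one_right this]
  exact hg

theorem gS_cases [Fintype ι] (h : LineSys n τ) {g : LG τ} (hg : g ∈ gS τ) (i : ℤ) :
    (g : Equiv.Perm ℤ) i = i ∨ (g : Equiv.Perm ℤ) i = i + 1 ∨ (g : Equiv.Perm ℤ) i = i - 1 := by
  rcases mem_gS.1 hg with rfl | ⟨s, rfl⟩
  · left; simp
  · exact h.cases s i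

variable [DecidableEq (LG τ)]

theorem gS_gen [Fintype ι] (h : LineSys n τ) (hn : 0 < n) (g : LG τ) : ∃ m : ℕ, g ∈ gS τ ^ m := by
  obtain ⟨w, hw⟩ := exists_wd h hn g
  have key : ∀ w : List ι, (⟨wd τ w, wd_mem τ w⟩ : LG τ) ∈ gS τ ^ w.length := by
    intro w
    induction w with
    | nil =>
      rw [List.length_nil, pow_zero, Finset.mem_one]
      exact Subtype.ext (wd_nil τ)
    | cons s w ih =>
      rw [List.length_cons, pow_succ']
      have e : (⟨wd τ (s :: w), wd_mem τ _⟩ : LG τ) = gen τ s * ⟨wd τ w, wd_mem τ w⟩ :=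
        Subtype.ext (wd_cons τ s w)
      rw [e]
      exact Finset.mul_mem_mul (mem_gS.2 (Or.inr ⟨s, rfl⟩)) ih
  refine ⟨w.length, ?_⟩
  have e : g = ⟨wd τ w, wd_mem τ w⟩ := Subtype.ext hw
  rw [e]
  exact key w

theorem disp_le [Fintype ι] (h : LineSys n τ) {m : ℕ} {g : LG τ} (hg : g ∈ gS τ ^ m) (i : ℤ) :
    |(g : Equiv.Perm ℤ) i - i| ≤ m := by
  induction m generalizing g with
  | zero =>
    rw [pow_zero, Finset.mem_one] at hg
    subst hg
    simp
  | succ m ih =>
    rw [pow_succ'] at hg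
    obtain ⟨s, hs, g', hg', rfl⟩ := Finset.mem_mul.1 hg
    have h1 := abs_le.1 (ih hg')
    have h2 := gS_cases h hs ((g' : Equiv.Perm ℤ) i)
    rw [Subgroup.coe_mul, Equiv.Perm.mul_apply, abs_le]
    push_cast
    rcases h2 with h2 | h2 | h2 <;> rw [h2] <;> constructor <;> linarith [h1.1, h1.2]

/-- polynomial growth from rigidity -/
theorem growth [Fintype ι] (h : LineSys n τ) (hn : 0 < n) {W : ℕ}
    (hW : ∀ v : List ι, (∀ x : ℤ, 0 ≤ x → x < W → wd τ v x = x) → wd τ v = 1) (m : ℕ) :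
    ((gS τ ^ m).card : ℝ) ≤ 2 ^ W * ((m : ℝ) + 1) ^ W := by
  classical
  have h1 : (gS τ ^ m).card ≤ (Fintype.piFinset fun _ : Fin W => Finset.Icc (-(m : ℤ)) m).card := by
    refine Finset.card_le_card_of_injOn (fun g (j : Fin W) => (g : Equiv.Perm ℤ) (j : ℤ) - j) ?_ ?_
    · intro g hg
      refine Finset.mem_coe.2 (Fintype.mem_piFinset.2 fun j => ?_)
      have := abs_le.1 (disp_le h (Finset.mem_coe.1 hg) (j : ℤ))
      exact Finset.mem_Icc.2 this
    · intro g _ g' _ hgg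
      obtain ⟨v, hv⟩ := exists_wd h hn (g⁻¹ * g')
      have h2 := hW v (fun x hx0 hx1 => by
        have h3 := congrFun hgg ⟨x.toNat, by omega⟩
        simp only [Int.toNat_of_nonneg hx0, sub_left_inj] at h3
        rw [← hv, Subgroup.coe_mul, Equiv.Perm.mul_apply, ← h3]
        exact (g : Equiv.Perm ℤ).symm_apply_apply x)
      rw [← hv] at h2
      have h3 : g⁻¹ * g' = 1 := Subtype.ext h2
      exact (inv_mul_eq_one.1 h3)
  rw [Fintype.card_piFinset_const, Int.card_Icc] at h1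
  have h2 : ((m : ℤ) + 1 - (-(m : ℤ))).toNat = 2 * m + 1 := by omega
  rw [h2] at h1
  have h3 : ((gS τ ^ m).card : ℝ) ≤ ((2 * m + 1 : ℕ) : ℝ) ^ W := by exact_mod_cast h1
  refine h3.trans ?_
  rw [← mul_pow]
  refine pow_le_pow_left₀ (by positivity) ?_ W
  push_cast
  linarith

end Pool.Agent.SCH
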