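/-
SCH, row MINK: an integer matrix of finite order prime to l which is 1 modulo l is 1.
-/
import Pool.Agent.Lib.SCH.Defs

set_option autoImplicit false

namespace Pool.Agent.SCH

theorem mink_exp {r : ℕ} (M : Matrix (Fin r) (Fin r) ℤ) (n : ℕ) :
    ∃ Q : Matrix (Fin r) (Fin r) ℤ, (1 + M) ^ n = 1 + (n : ℤ) • M + M * M * Q := by
  induction n with
  | zero => exact ⟨0, by simp⟩
  | succ n ih =>
    obtain ⟨Q, hQ⟩ := ih
    refine ⟨(n : ℤ) • 1 + Q * (1 + M), ?_⟩
    rw [pow_succ, hQ]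
    push_cast
    simp only [add_mul, mul_add, one_mul, mul_one, add_smul, one_smul, smul_mul_assoc,
      mul_smul_comm, mul_assoc]
    abel

/-- Minkowski: a matrix `N` over `ℤ` with `N ^ n = 1` and `N ≡ 1` modulo a prime not dividing
`n` is `1`. -/
theorem mink {r : ℕ} (N : Matrix (Fin r) (Fin r) ℤ) (n l : ℕ) (hN : N ^ n = 1)
    (hl : l.Prime) (hd : ¬ l ∣ n) (h : ∀ i j, (l : ℤ) ∣ (N - 1) i j) : N = 1 := by
  set M := N - 1 with hM
  have hNM : N = 1 + M := by rw [hM]; abel
  obtain ⟨Q, hQ⟩ := mink_exp M n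
  rw [← hNM, hN] at hQ
  have h0 : (n : ℤ) • M + M * M * Q = 0 := by
    have : (1 : Matrix (Fin r) (Fin r) ℤ) + ((n : ℤ) • M + M * M * Q) = 1 + 0 := by
      rw [← add_assoc, ← hQ, add_zero]
    exact add_left_cancel this
  have hc : IsCoprime (l : ℤ) (n : ℤ) :=
    Nat.isCoprime_iff_coprime.2 ((Nat.Prime.coprime_iff_not_dvd hl).2 hd)
  have key : ∀ a : ℕ, ∀ i j, (l : ℤ) ^ (a + 1) ∣ M i j := by
    intro a
    induction a with
    | zero => intro i j; simpa using h i j
    | succ a ih =>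
      intro i j
      have h1 : (l : ℤ) ^ (a + 1 + 1) ∣ (M * M * Q) i j := by
        rw [Matrix.mul_apply]
        refine Finset.dvd_sum fun k _ => Dvd.dvd.mul_right ?_ _
        rw [Matrix.mul_apply]
        refine Finset.dvd_sum fun m _ => ?_
        have h2 : (l : ℤ) ^ (a + 1) * (l : ℤ) ∣ M i m * M m k := mul_dvd_mul (ih i m) (h m k)
        rwa [← pow_succ] at h2
      have h3 : (n : ℤ) * M i j + (M * M * Q) i j = 0 := by
        have := congrFun (congrFun h0 i) j
        simpa only [Matrix.add_apply, Matrix.smul_apply, smul_eq_mul, Matrix.zero_apply] using this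
      have h4 : (l : ℤ) ^ (a + 1 + 1) ∣ (n : ℤ) * M i j := by
        rw [eq_neg_of_add_eq_zero_left h3]
        exact (dvd_neg).2 h1
      exact (hc.pow_left).dvd_of_dvd_mul_left h4
  rw [hNM]
  have hz : M = 0 := by
    ext i j
    by_contra hne
    have hne' : M i j ≠ 0 := by simpa using hne
    have h5 := Int.natAbs_dvd_natAbs.2 (key (M i j).natAbs i j)
    have h6 := Nat.le_of_dvd (Int.natAbs_pos.2 hne') h5
    rw [Int.natAbs_pow, Int.natAbs_natCast] at h6
    have h7 : (M i j).natAbs + 1 < l ^ ((M i j).natAbs + 1) := Nat.lt_pow_self hl.one_lt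
    omega
  rw [hz, add_zero]

end Pool.Agent.SCH
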