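/-
SCH, row FIN: a group of bounded exponent acting faithfully on a finite dimensional space of
integer valued functions is finite.
-/
import Pool.Agent.Lib.SCH.MINK

set_option autoImplicit false

namespace Pool.Agent.SCH

/-- Finitely many evaluations separate the points of a finite dimensional space of functions. -/
theorem exists_eval_inj {G : Type*} (W : Submodule ℝ (G → ℝ)) [FiniteDimensional ℝ W] :
    ∃ T : Finset G, ∀ F ∈ W, (∀ g ∈ T, F g = 0) → F = 0 := by
  classical
  let K : Finset G → Submodule ℝ (G → ℝ) := fun T =>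
    { carrier := {F | F ∈ W ∧ ∀ g ∈ T, F g = 0}
      add_mem' := by
        rintro a b ⟨ha, ha'⟩ ⟨hb, hb'⟩
        exact ⟨W.add_mem ha hb, fun g hg => by simp [ha' g hg, hb' g hg]⟩
      zero_mem' := ⟨W.zero_mem, fun g _ => rfl⟩
      smul_mem' := by
        rintro c a ⟨ha, ha'⟩
        exact ⟨W.smul_mem c ha, fun g hg => by simp [ha' g hg]⟩ }
  have hKW : ∀ T, K T ≤ W := fun T F hF => hF.1
  have hKf : ∀ T, FiniteDimensional ℝ (K T) := fun T =>
    Submodule.finiteDimensional_of_le (hKW T)
  obtain ⟨T, hT⟩ : ∃ T : Finset G, ∀ T' : Finset G,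
      Module.finrank ℝ (K T) ≤ Module.finrank ℝ (K T') := by
    have hne : (Set.range fun T : Finset G => Module.finrank ℝ (K T)).Nonempty :=
      ⟨_, ⟨∅, rfl⟩⟩
    obtain ⟨T, hT⟩ := Nat.sInf_mem hne
    exact ⟨T, fun T' => by
      have : sInf (Set.range fun T : Finset G => Module.finrank ℝ (K T)) ≤
        Module.finrank ℝ (K T') := Nat.sInf_le ⟨T', rfl⟩
      rw [← hT] at this
      exact this⟩
  refine ⟨T, fun F hF h0 => ?_⟩
  funext g
  have hle : K (insert g T) ≤ K T := fun F hF => ⟨hF.1, fun x hx =>
    hF.2 x (Finset.mem_insert_of_mem hx)⟩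
  have := hKf T
  have heq : K (insert g T) = K T :=
    Submodule.eq_of_le_of_finrank_le hle (hT _)
  have hm : F ∈ K (insert g T) := by rw [heq]; exact ⟨hF, h0⟩
  exact hm.2 g (Finset.mem_insert_self g T)

/-- If all linearly independent families of members of a family of vectors have at most `D₀`
members, the span is finite dimensional. -/
theorem finDim_span {E Y : Type*} [AddCommGroup E] [Module ℝ E] (f : Y → E) (D₀ : ℕ)
    (hD : ∀ (D : ℕ) (y : Fin D → Y), LinearIndependent ℝ (fun j => f (y j)) → D ≤ D₀) :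
    FiniteDimensional ℝ (Submodule.span ℝ (Set.range f)) := by
  classical
  obtain ⟨b, hb, hspan, hli⟩ := exists_linearIndependent ℝ (Set.range f)
  have hfin : b.Finite := by
    by_contra hinf
    have hinf' : b.Infinite := hinf
    have := hinf'.to_subtype
    let e := Infinite.natEmbedding b
    have hc : ∀ j : Fin (D₀ + 1), ∃ y : Y, f y = (e j : E) := fun j => hb (e j).2
    choose y hy using hc
    have h1 : LinearIndependent ℝ (fun j : Fin (D₀ + 1) => f (y j)) := by
      have h2 : (fun j : Fin (D₀ + 1) => f (y j)) =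
          (fun x : b => (x : E)) ∘ (fun j : Fin (D₀ + 1) => e (j : ℕ)) := by
        funext j; simp [hy]
      rw [h2]
      refine hli.comp _ ?_
      intro i j hij
      exact Fin.ext (e.injective hij)
    have := hD _ y h1
    omega
  rw [← hspan]
  exact FiniteDimensional.span_of_finite ℝ hfin

/-- The integer valued functions in a real space of functions. -/
def intPart {G : Type*} (W : Submodule ℝ (G → ℝ)) : Submodule ℤ (G → ℤ) where
  carrier := {F | (fun g => (F g : ℝ)) ∈ W}
  add_mem' := by
    intro a b ha hb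
    have : (fun g => ((a + b) g : ℝ)) = (fun g => (a g : ℝ)) + fun g => (b g : ℝ) := by
      funext g; simp
    show (fun g => ((a + b) g : ℝ)) ∈ W
    rw [this]
    exact W.add_mem ha hb
  zero_mem' := by
    have : (fun g : G => (((0 : G → ℤ) g : ℤ) : ℝ)) = 0 := by funext g; simp
    show (fun g : G => (((0 : G → ℤ) g : ℤ) : ℝ)) ∈ W
    rw [this]
    exact W.zero_mem
  smul_mem' := by
    intro c a ha
    have : (fun g => ((c • a) g : ℝ)) = (c : ℝ) • fun g => (a g : ℝ) := by
      funext g; simp
    show (fun g => ((c • a) g : ℝ)) ∈ W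
    rw [this]
    exact W.smul_mem _ ha

theorem intPart_finite {G : Type*} (W : Submodule ℝ (G → ℝ)) [FiniteDimensional ℝ W] :
    Module.Finite ℤ (intPart W) := by
  obtain ⟨T, hT⟩ := exists_eval_inj W
  let φ : intPart W →ₗ[ℤ] (T → ℤ) :=
    { toFun := fun F g => (F : G → ℤ) g
      map_add' := fun a b => rfl
      map_smul' := fun c a => rfl }
  refine Module.Finite.of_injective φ ?_
  intro a b hab
  have h1 : (fun g => (((a : G → ℤ) - (b : G → ℤ)) g : ℝ)) = 0 := by
    refine hT _ (intPart W |>.sub_mem a.2 b.2) fun g hg => ?_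
    have := congrFun hab ⟨g, hg⟩
    have h2 : (a : G → ℤ) g = (b : G → ℤ) g := this
    simp [h2]
  apply Subtype.ext
  funext g
  have := congrFun h1 g
  have h3 : (((a : G → ℤ) g - (b : G → ℤ) g : ℤ) : ℝ) = 0 := this
  have h4 : (a : G → ℤ) g - (b : G → ℤ) g = 0 := by exact_mod_cast h3
  omega

/-- Right translation on the integer valued functions of a translation invariant space. -/
def rtr {G : Type*} [Group G] (W : Submodule ℝ (G → ℝ))
    (hW : ∀ (k : G) (F : G → ℝ), F ∈ W → (fun g => F (g * k)) ∈ W) :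
    G →* Module.End ℤ (intPart W) where
  toFun k :=
    { toFun := fun F => ⟨fun g => (F : G → ℤ) (g * k), hW k _ F.2⟩
      map_add' := fun a b => rfl
      map_smul' := fun c a => rfl }
  map_one' := by
    ext F g
    simp
  map_mul' k k' := by
    ext F g
    simp [mul_assoc]

theorem finite_of_rank {G Y : Type*} [Group G] [MulAction G Y] (n : ℕ) (hn : 0 < n)
    (hexp : ∀ g : G, g ^ n = 1) (H : Y → G → ℤ) (hH : ∀ y g k, H y (g * k) = H (k • y) g)
    (hfaith : ∀ k : G, (∀ y, H (k • y) = H y) → k = 1) (D₀ : ℕ)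
    (hD : ∀ (D : ℕ) (y : Fin D → Y), LinearIndependent ℝ (fun j (g : G) => (H (y j) g : ℝ)) → D ≤ D₀) :
    Finite G := by
  classical
  set W : Submodule ℝ (G → ℝ) :=
    Submodule.span ℝ (Set.range fun (y : Y) (g : G) => (H y g : ℝ)) with hWdef
  have : FiniteDimensional ℝ W := finDim_span (fun (y : Y) (g : G) => (H y g : ℝ)) D₀ hD
  have hW : ∀ (k : G) (F : G → ℝ), F ∈ W → (fun g => F (g * k)) ∈ W := by
    intro k F hF
    rw [hWdef] at hF ⊢
    induction hF using Submodule.span_induction with
    | mem F hF =>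
      obtain ⟨y, rfl⟩ := hF
      refine Submodule.subset_span ⟨k • y, ?_⟩
      funext g
      simp [hH]
    | zero => exact Submodule.zero_mem _
    | add a b _ _ ha hb => exact Submodule.add_mem _ ha hb
    | smul c a _ ha => exact Submodule.smul_mem _ c ha
  have : Module.Finite ℤ (intPart W) := intPart_finite W
  obtain ⟨l, hl1, hl⟩ := Nat.exists_infinite_primes (n + 1)
  have hd : ¬ l ∣ n := fun h => by
    have := Nat.le_of_dvd hn h
    omega
  have : Fact l.Prime := ⟨hl⟩
  let b := Module.finBasis ℤ (intPart W)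
  let r := Module.finrank ℤ (intPart W)
  let μ : G →* Matrix (Fin r) (Fin r) ℤ :=
    ((LinearMap.toMatrixAlgEquiv b).toAlgHom.toRingHom.toMonoidHom).comp (rtr W hW)
  let ν : G →* Matrix (Fin r) (Fin r) (ZMod l) :=
    ((Int.castRingHom (ZMod l)).mapMatrix.toMonoidHom).comp μ
  have hμ : ∀ k, μ k = 1 → k = 1 := by
    intro k hk
    apply hfaith
    intro y
    have h1 : rtr W hW k = 1 := by
      have : LinearMap.toMatrixAlgEquiv b (rtr W hW k) = LinearMap.toMatrixAlgEquiv b 1 := by
        rw [map_one]; exact hk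
      exact (LinearMap.toMatrixAlgEquiv b).injective this
    have h2 : (H y) ∈ intPart W := Submodule.subset_span ⟨y, rfl⟩
    have h3 := congrArg (fun f : Module.End ℤ (intPart W) => ((f ⟨H y, h2⟩ : intPart W) : G → ℤ)) h1
    have h4 : (fun g => H y (g * k)) = H y := h3
    funext g
    rw [← hH y g k]
    exact congrFun h4 g
  have hν : Function.Injective ν := by
    rw [injective_iff_map_eq_one]
    intro k hk
    apply hμ
    refine mink (μ k) n l ?_ hl hd ?_
    · rw [← map_pow, hexp, map_one]
    · intro i j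
      have h1 : (ν k) i j = (1 : Matrix (Fin r) (Fin r) (ZMod l)) i j := by rw [hk]
      have h2 : (((μ k) i j : ℤ) : ZMod l) = ((1 : Matrix (Fin r) (Fin r) ℤ) i j : ℤ) := by
        have h5 : (((1 : Matrix (Fin r) (Fin r) ℤ) i j : ℤ) : ZMod l) =
            (1 : Matrix (Fin r) (Fin r) (ZMod l)) i j := by
          by_cases hij : i = j
          · subst hij; simp
          · simp [Matrix.one_apply_ne hij]
        rw [h5]; exact h1
      have h3 : (((μ k - 1) i j : ℤ) : ZMod l) = 0 := by
        rw [Matrix.sub_apply]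
        push_cast
        rw [h2, sub_self]
      exact (ZMod.intCast_zmod_eq_zero_iff_dvd _ _).1 h3
  exact Finite.of_injective ν hν

end Pool.Agent.SCH
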