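import Pool.Agent.Lib.SCH.Defs

/-!
# A Caccioppoli inequality (reverse Poincare inequality) on balls
-/

set_option autoImplicit false

open scoped Pointwise

namespace Pool.Agent.SCH

variable {G : Type*} [Group G] [DecidableEq G]

/-- number of the balls of radius in `[R, 2R)` which contain `x` -/
def cut (S : Finset G) (R : ℕ) (x : G) : ℕ :=
  ((Finset.Ico R (2 * R)).filter fun j => x ∈ S ^ j).card

theorem cut_eq (S : Finset G) (h1 : (1 : G) ∈ S) (R : ℕ) (x : G) (hx : x ∈ S ^ R) :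
    cut S R x = R := by
  unfold cut
  rw [Finset.filter_true_of_mem, Nat.card_Ico]
  · omega
  · intro j hj
    exact Finset.pow_subset_pow_right h1 (Finset.mem_Ico.1 hj).1 hx

theorem cut_zero (S : Finset G) (h1 : (1 : G) ∈ S) (R : ℕ) (x : G)
    (hx : x ∉ S ^ (2 * R - 1)) : cut S R x = 0 := by
  unfold cut
  rw [Finset.card_eq_zero, Finset.filter_eq_empty_iff]
  intro j hj hxj
  have := (Finset.mem_Ico.1 hj).2
  exact hx (Finset.pow_subset_pow_right h1 (by omega) hxj)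

theorem cut_le (S : Finset G) (R : ℕ) (x y : G)
    (h : ∀ j, x ∈ S ^ j → y ∈ S ^ (j + 1)) : cut S R x ≤ cut S R y + 1 := by
  unfold cut
  rcases Nat.eq_zero_or_pos R with hR | hR
  · subst hR
    simp
  have h1 : ((Finset.Ico R (2 * R)).filter fun j => x ∈ S ^ j) ⊆
      insert (2 * R - 1) ((((Finset.Ico R (2 * R)).filter fun j => y ∈ S ^ j)).image
        fun j => j - 1) := by
    intro j hj
    rw [Finset.mem_filter, Finset.mem_Ico] at hj
    rw [Finset.mem_insert]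
    by_cases hj2 : j = 2 * R - 1
    · exact Or.inl hj2
    · right
      rw [Finset.mem_image]
      refine ⟨j + 1, ?_, by omega⟩
      rw [Finset.mem_filter, Finset.mem_Ico]
      exact ⟨⟨by omega, by omega⟩, h j hj.2⟩
  calc ((Finset.Ico R (2 * R)).filter fun j => x ∈ S ^ j).card
      ≤ (insert (2 * R - 1) ((((Finset.Ico R (2 * R)).filter fun j => y ∈ S ^ j)).image
        fun j => j - 1)).card := Finset.card_le_card h1
    _ ≤ ((((Finset.Ico R (2 * R)).filter fun j => y ∈ S ^ j)).image fun j => j - 1).card + 1 :=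
        Finset.card_insert_le _ _
    _ ≤ _ := Nat.add_le_add_right Finset.card_image_le 1

/-- Caccioppoli inequality -/
theorem cacc (S : Finset G) (h1 : (1 : G) ∈ S)
    (hinv : ∀ s ∈ S, s⁻¹ ∈ S) (f : G → ℝ) (hf : Harm S f) (R : ℕ) (hR : 1 ≤ R) :
    (R : ℝ) ^ 2 * ∑ x ∈ S ^ R, En S f x ≤ 4 * (S.card : ℝ) * ∑ x ∈ S ^ (2 * R), f x ^ 2 := by
  classical
  set D := S ^ (2 * R) with hD
  set Om : Finset (G × G) := (D ×ˢ S).filter fun z => z.2 * z.1 ∈ D with hOm
  have hmemOm : ∀ z : G × G, z ∈ Om ↔ (z.1 ∈ D ∧ z.2 ∈ S) ∧ z.2 * z.1 ∈ D := by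
    intro z
    rw [hOm, Finset.mem_filter, Finset.mem_product]
  set p : G → ℝ := fun x => (cut S R x : ℝ) with hp
  have hp0 : ∀ x, x ∉ S ^ (2 * R - 1) → p x = 0 := by
    intro x hx
    simp only [hp]
    rw [cut_zero S h1 R x hx, Nat.cast_zero]
  have hpR : ∀ x, x ∈ S ^ R → p x = R := by
    intro x hx
    simp only [hp]
    rw [cut_eq S h1 R x hx]
  have hstep : ∀ j x s, s ∈ S → x ∈ S ^ j → s * x ∈ S ^ (j + 1) := by
    intro j x s hs hx
    rw [pow_succ']
    exact Finset.mul_mem_mul hs hx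
  have hlip : ∀ x, ∀ s ∈ S, (p x - p (s * x)) ^ 2 ≤ 1 := by
    intro x s hs
    have a1 : cut S R x ≤ cut S R (s * x) + 1 := cut_le S R x (s * x) fun j hj => hstep j x s hs hj
    have a2 : cut S R (s * x) ≤ cut S R x + 1 := cut_le S R (s * x) x fun j hj => by
      have := hstep j (s * x) s⁻¹ (hinv s hs) hj
      rwa [inv_mul_cancel_left] at this
    have b1 : p x ≤ p (s * x) + 1 := by
      simp only [hp]
      exact_mod_cast a1
    have b2 : p (s * x) ≤ p x + 1 := by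
      simp only [hp]
      exact_mod_cast a2
    nlinarith
  -- the symmetry of the set of pairs
  have hsymm : ∀ F : G → G → ℝ, ∑ z ∈ Om, F z.1 (z.2 * z.1) = ∑ z ∈ Om, F (z.2 * z.1) z.1 := by
    intro F
    refine Finset.sum_bij' (fun z _ => (z.2 * z.1, z.2⁻¹)) (fun z _ => (z.2 * z.1, z.2⁻¹))
      ?_ ?_ ?_ ?_ ?_
    · intro z hz
      rw [hmemOm] at hz ⊢
      refine ⟨⟨hz.2, hinv _ hz.1.2⟩, ?_⟩
      simp only [inv_mul_cancel_left]
      exact hz.1.1
    · intro z hz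
      rw [hmemOm] at hz ⊢
      refine ⟨⟨hz.2, hinv _ hz.1.2⟩, ?_⟩
      simp only [inv_mul_cancel_left]
      exact hz.1.1
    · intro z _
      simp
    · intro z _
      simp
    · intro z _
      simp
  -- sums over pairs and double sums
  have hsum : ∀ F : G → G → ℝ, (∀ x, x ∉ S ^ (2 * R - 1) → ∀ y, F x y = 0) →
      ∑ z ∈ Om, F z.1 (z.2 * z.1) = ∑ x ∈ D, ∑ s ∈ S, F x (s * x) := by
    intro F hF
    rw [← Finset.sum_product' (s := D) (t := S) (f := fun x s => F x (s * x)), hOm,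
      Finset.sum_filter]
    refine Finset.sum_congr rfl fun z hz => ?_
    split_ifs with hz2
    · rfl
    · symm
      apply hF
      intro hz3
      apply hz2
      have := hstep _ z.1 z.2 (Finset.mem_product.1 hz).2 hz3
      rwa [show 2 * R - 1 + 1 = 2 * R by omega] at this
  -- harmonicity
  have hharm : ∑ z ∈ Om, p z.1 ^ 2 * f z.1 * (f (z.2 * z.1) - f z.1) = 0 := by
    have e1 := hsum (fun x y => p x ^ 2 * f x * (f y - f x)) (by
      intro x hx y
      simp only [hp0 x hx]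
      ring)
    rw [e1]
    refine Finset.sum_eq_zero fun x _ => ?_
    rw [← Finset.mul_sum, hf x, mul_zero]
  have hharm2 : ∑ z ∈ Om, p (z.2 * z.1) ^ 2 * f (z.2 * z.1) * (f z.1 - f (z.2 * z.1)) = 0 := by
    rw [← hsymm (fun x y => p x ^ 2 * f x * (f y - f x))]
    exact hharm
  -- pointwise inequality
  have hpt : ∀ z ∈ Om, (p z.1 ^ 2 + p (z.2 * z.1) ^ 2) * (f z.1 - f (z.2 * z.1)) ^ 2 ≤
      4 * (p z.1 - p (z.2 * z.1)) ^ 2 * (f z.1 ^ 2 + f (z.2 * z.1) ^ 2) -
        4 * (p z.1 ^ 2 * f z.1 * (f (z.2 * z.1) - f z.1) +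
          p (z.2 * z.1) ^ 2 * f (z.2 * z.1) * (f z.1 - f (z.2 * z.1))) := by
    intro z _
    generalize f z.1 = a
    generalize f (z.2 * z.1) = b
    generalize p z.1 = c
    generalize p (z.2 * z.1) = d
    nlinarith [sq_nonneg ((c + d) * (a - b) + 2 * (c - d) * (a + b)),
      sq_nonneg ((c - d) * (a - b)), sq_nonneg ((c - d) * (a + b)),
      sq_nonneg ((c + d) * (a - b)), sq_nonneg ((c - d) * (a - b))]
  have htot := Finset.sum_le_sum hpt
  rw [Finset.sum_sub_distrib, ← Finset.mul_sum, Finset.sum_add_distrib, hharm, hharm2] at htot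
  -- the two sides
  have hL : ∑ z ∈ Om, (p z.1 ^ 2 + p (z.2 * z.1) ^ 2) * (f z.1 - f (z.2 * z.1)) ^ 2 =
      2 * ∑ z ∈ Om, p z.1 ^ 2 * (f (z.2 * z.1) - f z.1) ^ 2 := by
    have e1 := hsymm (fun x y => p x ^ 2 * (f y - f x) ^ 2)
    rw [two_mul]
    nth_rewrite 2 [e1]
    rw [← Finset.sum_add_distrib]
    refine Finset.sum_congr rfl fun z _ => ?_
    ring
  have hRt : ∑ z ∈ Om, 4 * (p z.1 - p (z.2 * z.1)) ^ 2 * (f z.1 ^ 2 + f (z.2 * z.1) ^ 2) =
      2 * ∑ z ∈ Om, 4 * (p z.1 - p (z.2 * z.1)) ^ 2 * f z.1 ^ 2 := by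
    have e1 := hsymm (fun x y => 4 * (p x - p y) ^ 2 * f x ^ 2)
    rw [two_mul]
    nth_rewrite 2 [e1]
    rw [← Finset.sum_add_distrib]
    refine Finset.sum_congr rfl fun z _ => ?_
    ring
  rw [hL, hRt] at htot
  have hR1 : ∑ z ∈ Om, 4 * (p z.1 - p (z.2 * z.1)) ^ 2 * f z.1 ^ 2 ≤
      4 * (S.card : ℝ) * ∑ x ∈ D, f x ^ 2 := by
    calc ∑ z ∈ Om, 4 * (p z.1 - p (z.2 * z.1)) ^ 2 * f z.1 ^ 2
        ≤ ∑ z ∈ Om, 4 * f z.1 ^ 2 := by
          refine Finset.sum_le_sum fun z hz => ?_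
          have h2 := hlip z.1 z.2 ((hmemOm z).1 hz).1.2
          nlinarith [mul_le_mul_of_nonneg_right h2 (sq_nonneg (f z.1))]
      _ ≤ ∑ z ∈ D ×ˢ S, 4 * f z.1 ^ 2 :=
          Finset.sum_le_sum_of_subset_of_nonneg (Finset.filter_subset _ _)
            (fun z _ _ => by positivity)
      _ = 4 * (S.card : ℝ) * ∑ x ∈ D, f x ^ 2 := by
          rw [Finset.sum_product]
          simp only [Finset.sum_const, nsmul_eq_mul]
          rw [Finset.mul_sum]
          refine Finset.sum_congr rfl fun x _ => ?_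
          ring
  have hL1 : (R : ℝ) ^ 2 * ∑ x ∈ S ^ R, En S f x ≤
      ∑ z ∈ Om, p z.1 ^ 2 * (f (z.2 * z.1) - f z.1) ^ 2 := by
    have e1 := hsum (fun x y => p x ^ 2 * (f y - f x) ^ 2) (by
      intro x hx y
      simp only [hp0 x hx]
      ring)
    rw [e1]
    have hsub : S ^ R ⊆ D := Finset.pow_subset_pow_right h1 (by omega)
    calc (R : ℝ) ^ 2 * ∑ x ∈ S ^ R, En S f x
        = ∑ x ∈ S ^ R, ∑ s ∈ S, p x ^ 2 * (f (s * x) - f x) ^ 2 := by
          rw [Finset.mul_sum]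
          refine Finset.sum_congr rfl fun x hx => ?_
          rw [← Finset.mul_sum, hpR x hx]
          rfl
      _ ≤ ∑ x ∈ D, ∑ s ∈ S, p x ^ 2 * (f (s * x) - f x) ^ 2 :=
          Finset.sum_le_sum_of_subset_of_nonneg hsub
            (fun x _ _ => Finset.sum_nonneg fun s _ => by positivity)
  linarith

end Pool.Agent.SCH
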