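import Pool.Agent.Lib.SCH.Defs

/-!
# A Poincare inequality on balls
-/

set_option autoImplicit false

open scoped Pointwise

namespace Pool.Agent.SCH

variable {G : Type*} [Group G] [DecidableEq G]

theorem sum_En_shift (S : Finset G) (f : G → ℝ) (A D : Finset G) (v : G)
    (h : ∀ x ∈ A, v * x ∈ D) : ∑ x ∈ A, En S f (v * x) ≤ ∑ w ∈ D, En S f w := by
  have h1 : ∑ x ∈ A, En S f (v * x) = ∑ w ∈ A.image (fun x => v * x), En S f w := by
    rw [Finset.sum_image]
    intro x _ y _ hxy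
    exact mul_left_cancel hxy
  rw [h1]
  refine Finset.sum_le_sum_of_subset_of_nonneg ?_ (fun w _ _ => En_nonneg S f w)
  intro w hw
  obtain ⟨x, hx, rfl⟩ := Finset.mem_image.1 hw
  exact h x hx

theorem sum_shift_le (S : Finset G) (h1 : (1 : G) ∈ S) (f : G → ℝ) (A : Finset G) :
    ∀ (m : ℕ) (u : G), u ∈ S ^ m →
      ∑ x ∈ A, (f (u * x) - f x) ^ 2 ≤ (m : ℝ) ^ 2 * ∑ w ∈ S ^ m * A, En S f w := by
  intro m
  induction m with
  | zero =>
    intro u hu
    rw [pow_zero, Finset.mem_one] at hu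
    subst hu
    simp
  | succ m ih =>
    intro u hu
    rw [pow_succ', Finset.mem_mul] at hu
    obtain ⟨s, hs, v, hv, rfl⟩ := hu
    have hsub : S ^ m * A ⊆ S ^ (m + 1) * A :=
      Finset.mul_subset_mul_right (Finset.pow_subset_pow_right h1 (Nat.le_succ m))
    have hE : ∑ w ∈ S ^ m * A, En S f w ≤ ∑ w ∈ S ^ (m + 1) * A, En S f w :=
      Finset.sum_le_sum_of_subset_of_nonneg hsub (fun w _ _ => En_nonneg S f w)
    have ha : ∑ x ∈ A, (f (s * (v * x)) - f (v * x)) ^ 2 ≤ ∑ w ∈ S ^ (m + 1) * A, En S f w := by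
      refine le_trans ?_ (sum_En_shift S f A (S ^ (m + 1) * A) v
        (fun x hx => hsub (Finset.mul_mem_mul hv hx)))
      refine Finset.sum_le_sum fun x _ => ?_
      exact Finset.single_le_sum (f := fun t => (f (t * (v * x)) - f (v * x)) ^ 2)
        (fun t _ => sq_nonneg _) hs
    have hb := ih v hv
    set E := ∑ w ∈ S ^ (m + 1) * A, En S f w with hEdef
    have hE0 : 0 ≤ E := Finset.sum_nonneg fun w _ => En_nonneg S f w
    rcases Nat.eq_zero_or_pos m with hm | hm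
    · subst hm
      rw [pow_zero, Finset.mem_one] at hv
      subst hv
      simp only [one_mul] at ha
      simp only [mul_one, zero_add, Nat.cast_one, one_pow, one_mul]
      exact ha
    · have hm' : (0 : ℝ) < m := by exact_mod_cast hm
      have key : ∀ x ∈ A, (f (s * v * x) - f x) ^ 2 ≤
          ((m : ℝ) + 1) * (f (s * (v * x)) - f (v * x)) ^ 2 +
            ((m : ℝ) + 1) / m * (f (v * x) - f x) ^ 2 := by
        intro x _
        rw [mul_assoc]
        set a := f (s * (v * x)) - f (v * x)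
        set b := f (v * x) - f x
        have e1 : f (s * (v * x)) - f x = a + b := by simp only [a, b]; ring
        rw [e1]
        have e2 : ((m : ℝ) + 1) * a ^ 2 + ((m : ℝ) + 1) / m * b ^ 2 - (a + b) ^ 2 =
            (m * a - b) ^ 2 / m := by
          field_simp
          ring
        have e3 : 0 ≤ (m * a - b) ^ 2 / m := div_nonneg (sq_nonneg _) hm'.le
        linarith
      calc ∑ x ∈ A, (f (s * v * x) - f x) ^ 2
          ≤ ∑ x ∈ A, (((m : ℝ) + 1) * (f (s * (v * x)) - f (v * x)) ^ 2 +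
            ((m : ℝ) + 1) / m * (f (v * x) - f x) ^ 2) := Finset.sum_le_sum key
        _ = ((m : ℝ) + 1) * ∑ x ∈ A, (f (s * (v * x)) - f (v * x)) ^ 2 +
            ((m : ℝ) + 1) / m * ∑ x ∈ A, (f (v * x) - f x) ^ 2 := by
          rw [Finset.sum_add_distrib, Finset.mul_sum, Finset.mul_sum]
        _ ≤ ((m : ℝ) + 1) * E + ((m : ℝ) + 1) / m * ((m : ℝ) ^ 2 * E) := by
          refine add_le_add (mul_le_mul_of_nonneg_left ha (by positivity)) ?_
          refine mul_le_mul_of_nonneg_left (hb.trans ?_) (by positivity)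
          exact mul_le_mul_of_nonneg_left hE (by positivity)
        _ = (((m + 1 : ℕ) : ℝ)) ^ 2 * E := by
          push_cast
          field_simp
          ring

/-- Poincare inequality -/
theorem poin (S : Finset G) (h1 : (1 : G) ∈ S)
    (hinv : ∀ s ∈ S, s⁻¹ ∈ S) (f : G → ℝ) (r : ℕ) (h0 : ∑ x ∈ S ^ r, f x = 0) :
    ((S ^ r).card : ℝ) * ∑ x ∈ S ^ r, f x ^ 2 ≤
      2 * (r : ℝ) ^ 2 * ((S ^ (2 * r)).card : ℝ) * ∑ x ∈ S ^ (3 * r), En S f x := by
  have hpinv : ∀ (k : ℕ) (x : G), x ∈ S ^ k → x⁻¹ ∈ S ^ k := by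
    intro k
    induction k with
    | zero =>
      intro x hx
      rw [pow_zero, Finset.mem_one] at hx ⊢
      rw [hx, inv_one]
    | succ k ih =>
      intro x hx
      rw [pow_succ', Finset.mem_mul] at hx
      obtain ⟨s, hs, y, hy, rfl⟩ := hx
      rw [mul_inv_rev, pow_succ]
      exact Finset.mul_mem_mul (ih y hy) (hinv s hs)
  set B := S ^ r with hB
  -- the double sum
  have hdouble : ∑ x ∈ B, ∑ y ∈ B, (f y - f x) ^ 2 = 2 * ((B.card : ℝ) * ∑ x ∈ B, f x ^ 2) := by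
    have e1 : ∀ x ∈ B, ∑ y ∈ B, (f y - f x) ^ 2 =
        ∑ y ∈ B, f y ^ 2 + (B.card : ℝ) * f x ^ 2 := by
      intro x _
      have e2 : ∀ y ∈ B, (f y - f x) ^ 2 = f y ^ 2 - 2 * f x * f y + f x ^ 2 := by
        intro y _
        ring
      rw [Finset.sum_congr rfl e2, Finset.sum_add_distrib, Finset.sum_sub_distrib,
        ← Finset.mul_sum, h0, Finset.sum_const, nsmul_eq_mul]
      ring
    rw [Finset.sum_congr rfl e1, Finset.sum_add_distrib, Finset.sum_const, nsmul_eq_mul,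
      ← Finset.mul_sum]
    ring
  have hle : ∑ x ∈ B, ∑ y ∈ B, (f y - f x) ^ 2 ≤
      ∑ x ∈ B, ∑ u ∈ S ^ (2 * r), (f (u * x) - f x) ^ 2 := by
    refine Finset.sum_le_sum fun x hx => ?_
    have e1 : ∑ y ∈ B, (f y - f x) ^ 2 =
        ∑ u ∈ B.image (fun y => y * x⁻¹), (f (u * x) - f x) ^ 2 := by
      rw [Finset.sum_image]
      · refine Finset.sum_congr rfl fun y _ => ?_
        rw [inv_mul_cancel_right]
      · intro y _ z _ hyz
        exact mul_right_cancel hyz
    rw [e1]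
    refine Finset.sum_le_sum_of_subset_of_nonneg ?_ (fun u _ _ => sq_nonneg _)
    intro u hu
    obtain ⟨y, hy, rfl⟩ := Finset.mem_image.1 hu
    rw [two_mul, pow_add]
    exact Finset.mul_mem_mul hy (hpinv r x hx)
  have h2 : ∑ x ∈ B, ∑ u ∈ S ^ (2 * r), (f (u * x) - f x) ^ 2 ≤
      ((S ^ (2 * r)).card : ℝ) * (((2 * r : ℕ) : ℝ) ^ 2 * ∑ w ∈ S ^ (3 * r), En S f w) := by
    rw [Finset.sum_comm]
    have e1 : ∀ u ∈ S ^ (2 * r), ∑ x ∈ B, (f (u * x) - f x) ^ 2 ≤
        ((2 * r : ℕ) : ℝ) ^ 2 * ∑ w ∈ S ^ (3 * r), En S f w := by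
      intro u hu
      have e2 := sum_shift_le S h1 f B (2 * r) u hu
      have e3 : S ^ (2 * r) * B = S ^ (3 * r) := by
        rw [hB, ← pow_add]
        congr 1
        ring
      rwa [e3] at e2
    calc ∑ u ∈ S ^ (2 * r), ∑ x ∈ B, (f (u * x) - f x) ^ 2
        ≤ ∑ _u ∈ S ^ (2 * r), ((2 * r : ℕ) : ℝ) ^ 2 * ∑ w ∈ S ^ (3 * r), En S f w :=
          Finset.sum_le_sum e1
      _ = _ := by rw [Finset.sum_const, nsmul_eq_mul]
  have h3 := hle.trans h2
  rw [hdouble] at h3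
  push_cast at h3
  nlinarith [h3]

end Pool.Agent.SCH
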