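/-
SCH, row DECAY: a harmonic function with vanishing sums over the balls of a net decays inwards.
-/
import Pool.Agent.Lib.SCH.POIN
import Pool.Agent.Lib.SCH.CACC

set_option autoImplicit false

open scoped Pointwise

namespace Pool.Agent.SCH

theorem pow_inv_mem {G : Type*} [Group G] [DecidableEq G] (S : Finset G)
    (hinv : ∀ s ∈ S, s⁻¹ ∈ S) (m : ℕ) {g : G} (hg : g ∈ S ^ m) : g⁻¹ ∈ S ^ m := by
  have h : S⁻¹ = S := by
    ext x
    rw [Finset.mem_inv']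
    exact ⟨fun h => by simpa using hinv _ h, fun h => hinv _ h⟩
  rw [← h, inv_pow]
  exact Finset.inv_mem_inv hg

/-- A maximal family of disjoint translates. -/
theorem exists_net {G : Type*} [Group G] [DecidableEq G] (S : Finset G) (h1 : (1 : G) ∈ S)
    (hinv : ∀ s ∈ S, s⁻¹ ∈ S) (ρ R : ℕ) :
    ∃ Z : Finset G, Z ⊆ S ^ R ∧
      (Z : Set G).PairwiseDisjoint (fun z => (S ^ ρ).image (· * z)) ∧
      ∀ x ∈ S ^ R, ∃ z ∈ Z, ∃ y ∈ S ^ (2 * ρ), y * z = x := by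
  classical
  obtain ⟨Z, hZ, hmax⟩ := Finset.exists_max_image
    ((S ^ R).powerset.filter fun Z : Finset G =>
      (Z : Set G).PairwiseDisjoint (fun z => (S ^ ρ).image (· * z))) Finset.card
    ⟨∅, by simp⟩
  rw [Finset.mem_filter, Finset.mem_powerset] at hZ
  refine ⟨Z, hZ.1, hZ.2, fun x hx => ?_⟩
  by_cases hxZ : x ∈ Z
  · exact ⟨x, hxZ, 1, Finset.one_mem_pow h1, one_mul x⟩
  by_contra hcon
  push Not at hcon
  have hP : ((insert x Z : Finset G) : Set G).PairwiseDisjoint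
      (fun z => (S ^ ρ).image (· * z)) := by
    rw [Finset.coe_insert]
    refine hZ.2.insert fun z hz _ => ?_
    rw [Finset.disjoint_left]
    rintro g hg hg'
    obtain ⟨u, hu, rfl⟩ := Finset.mem_image.1 hg
    obtain ⟨v, hv, hv'⟩ := Finset.mem_image.1 hg'
    refine hcon z hz (u⁻¹ * v) ?_ ?_
    · rw [two_mul, pow_add]
      exact Finset.mul_mem_mul (pow_inv_mem S hinv ρ hu) hv
    · rw [mul_assoc]
      have hv2 : v * z = u * x := hv'
      rw [hv2]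
      simp
  have := hmax (insert x Z) (by
    rw [Finset.mem_filter, Finset.mem_powerset]
    exact ⟨Finset.insert_subset hx hZ.1, hP⟩)
  rw [Finset.card_insert_of_notMem hxZ] at this
  omega

theorem card_transl {G : Type*} [Group G] [DecidableEq G] (B : Finset G) (z : G) :
    (B.image (· * z)).card = B.card :=
  Finset.card_image_of_injective _ (mul_left_injective z)

theorem decay_arith {R ρ σ b1 b2 b4 b7 b8 A N E6 E F : ℝ} (hb1 : 0 ≤ b1) (hb4 : 0 ≤ b4)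
    (hb7 : 0 ≤ b7) (hb8 : 0 ≤ b8) (hA0 : 0 ≤ A) (hE : 0 ≤ E)
    (c1 : b1 ≤ b2) (c2 : b4 ≤ b8) (c3 : b7 ≤ b8) (hA : A ≤ N)
    (hB : b2 * N ≤ 8 * ρ ^ 2 * b4 * E6) (hC : b1 * E6 ≤ b7 * E)
    (hD : (2 * R) ^ 2 * E ≤ 4 * σ * F) :
    R ^ 2 * b1 ^ 2 * A ≤ 8 * ρ ^ 2 * σ * b8 ^ 2 * F := by
  have h1 : b1 * A ≤ b2 * N := mul_le_mul c1 hA hA0 (hb1.trans c1)
  have h2 : b1 * (b1 * A) ≤ b1 * (8 * ρ ^ 2 * b4 * E6) :=
    mul_le_mul_of_nonneg_left (h1.trans hB) hb1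
  have h3 : 8 * ρ ^ 2 * b4 * (b1 * E6) ≤ 8 * ρ ^ 2 * b4 * (b7 * E) :=
    mul_le_mul_of_nonneg_left hC (by positivity)
  have h4 : b4 * b7 ≤ b8 * b8 := mul_le_mul c2 c3 hb7 hb8
  have h5 : 8 * ρ ^ 2 * E * (b4 * b7) ≤ 8 * ρ ^ 2 * E * (b8 * b8) :=
    mul_le_mul_of_nonneg_left h4 (by positivity)
  have h6 : b1 * (b1 * A) ≤ 8 * ρ ^ 2 * E * (b8 * b8) := by linarith
  have h7 : R ^ 2 * (b1 * (b1 * A)) ≤ R ^ 2 * (8 * ρ ^ 2 * E * (b8 * b8)) :=
    mul_le_mul_of_nonneg_left h6 (sq_nonneg R)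
  have h8 : R ^ 2 * E ≤ σ * F := by linarith
  have h9 : 8 * ρ ^ 2 * b8 ^ 2 * (R ^ 2 * E) ≤ 8 * ρ ^ 2 * b8 ^ 2 * (σ * F) :=
    mul_le_mul_of_nonneg_left h8 (by positivity)
  linarith

theorem decay_aux {G : Type*} [Group G] [DecidableEq G] (S : Finset G) (h1 : (1 : G) ∈ S)
    (hinv : ∀ s ∈ S, s⁻¹ ∈ S) (ρ R : ℕ) (hρ : 1 ≤ ρ) (hR : 6 * ρ ≤ R)
    (hpoin : ∀ (f : G → ℝ) (r : ℕ), ∑ x ∈ S ^ r, f x = 0 →
      ((S ^ r).card : ℝ) * ∑ x ∈ S ^ r, f x ^ 2 ≤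
        2 * (r : ℝ) ^ 2 * ((S ^ (2 * r)).card : ℝ) * ∑ x ∈ S ^ (3 * r), En S f x)
    (hcacc : ∀ (f : G → ℝ), Harm S f → ∀ R : ℕ, 1 ≤ R →
      (R : ℝ) ^ 2 * ∑ x ∈ S ^ R, En S f x ≤ 4 * (S.card : ℝ) * ∑ x ∈ S ^ (2 * R), f x ^ 2) :
    ∃ Z : Finset G, Z.card * (S ^ ρ).card ≤ (S ^ (2 * R)).card ∧
      ∀ f : G → ℝ, Harm S f → (∀ z ∈ Z, ∑ x ∈ S ^ (2 * ρ), f (x * z) = 0) →
        (R : ℝ) ^ 2 * ((S ^ ρ).card : ℝ) ^ 2 * ∑ x ∈ S ^ R, f x ^ 2 ≤
          8 * (ρ : ℝ) ^ 2 * (S.card : ℝ) * ((S ^ (8 * ρ)).card : ℝ) ^ 2 *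
            ∑ x ∈ S ^ (4 * R), f x ^ 2 := by
  classical
  obtain ⟨Z, hZR, hdis, hcov⟩ := exists_net S h1 hinv ρ R
  have hmono : ∀ {m k : ℕ}, m ≤ k → S ^ m ⊆ S ^ k := fun h => Finset.pow_subset_pow_right h1 h
  refine ⟨Z, ?_, ?_⟩
  · have h2 : (Z.biUnion fun z => (S ^ ρ).image (· * z)).card = Z.card * (S ^ ρ).card := by
      rw [Finset.card_biUnion (fun a ha b hb hab => hdis ha hb hab)]
      simp only [card_transl, Finset.sum_const, smul_eq_mul]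
    rw [← h2]
    refine Finset.card_le_card fun g hg => ?_
    obtain ⟨z, hz, hg⟩ := Finset.mem_biUnion.1 hg
    obtain ⟨u, hu, rfl⟩ := Finset.mem_image.1 hg
    refine hmono (show ρ + R ≤ 2 * R by omega) ?_
    rw [pow_add]
    exact Finset.mul_mem_mul hu (hZR hz)
  · intro f hf h0
    -- the sum over the ball is at most the sum over the net
    have hA : ∑ x ∈ S ^ R, f x ^ 2 ≤ ∑ z ∈ Z, ∑ y ∈ S ^ (2 * ρ), f (y * z) ^ 2 := by
      have hc : ∀ x : G, ∃ p : G × G, x ∈ S ^ R → p.1 ∈ Z ∧ p.2 ∈ S ^ (2 * ρ) ∧ p.2 * p.1 = x := by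
        intro x
        by_cases hx : x ∈ S ^ R
        · obtain ⟨z, hz, y, hy, hyz⟩ := hcov x hx
          exact ⟨(z, y), fun _ => ⟨hz, hy, hyz⟩⟩
        · exact ⟨(1, 1), fun h => absurd h hx⟩
      choose σ hσ using hc
      rw [← Finset.sum_product']
      have hinj : Set.InjOn σ (S ^ R : Finset G) := by
        intro a ha b hb hab
        rw [← (hσ a ha).2.2, ← (hσ b hb).2.2, hab]
      have h3 : ∑ x ∈ S ^ R, f x ^ 2 = ∑ p ∈ (S ^ R).image σ, f (p.2 * p.1) ^ 2 := by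
        rw [Finset.sum_image (fun a ha b hb hab => hinj ha hb hab)]
        refine Finset.sum_congr rfl fun x hx => ?_
        rw [(hσ x hx).2.2]
      rw [h3]
      refine Finset.sum_le_sum_of_subset_of_nonneg ?_ fun _ _ _ => sq_nonneg _
      intro p hp
      obtain ⟨x, hx, rfl⟩ := Finset.mem_image.1 hp
      exact Finset.mem_product.2 ⟨(hσ x hx).1, (hσ x hx).2.1⟩
    -- Poincare on every ball of the net
    have hB : ((S ^ (2 * ρ)).card : ℝ) * ∑ z ∈ Z, ∑ y ∈ S ^ (2 * ρ), f (y * z) ^ 2 ≤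
        8 * (ρ : ℝ) ^ 2 * ((S ^ (4 * ρ)).card : ℝ) *
          ∑ z ∈ Z, ∑ y ∈ S ^ (6 * ρ), En S f (y * z) := by
      rw [Finset.mul_sum, Finset.mul_sum]
      refine Finset.sum_le_sum fun z hz => ?_
      have h4 := hpoin (fun x => f (x * z)) (2 * ρ) (h0 z hz)
      have h5 : ∀ x, En S (fun x => f (x * z)) x = En S f (x * z) := fun x => by
        unfold En
        refine Finset.sum_congr rfl fun s _ => ?_
        show (f (s * x * z) - f (x * z)) ^ 2 = _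
        rw [mul_assoc]
      simp only [h5] at h4
      rw [show 2 * (2 * ρ) = 4 * ρ by ring, show 3 * (2 * ρ) = 6 * ρ by ring] at h4
      push_cast at h4
      calc _ ≤ _ := h4
        _ = _ := by ring
    -- the multiplicity of the net
    have hM : ∀ w : G, ((Z.filter fun z => w * z⁻¹ ∈ S ^ (6 * ρ)).card : ℝ) *
        ((S ^ ρ).card : ℝ) ≤ ((S ^ (7 * ρ)).card : ℝ) := by
      intro w
      have h6 : ((Z.filter fun z => w * z⁻¹ ∈ S ^ (6 * ρ)).biUnion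
          fun z => (S ^ ρ).image (· * z)).card =
          (Z.filter fun z => w * z⁻¹ ∈ S ^ (6 * ρ)).card * (S ^ ρ).card := by
        rw [Finset.card_biUnion (fun a ha b hb hab =>
          hdis (Finset.mem_filter.1 ha).1 (Finset.mem_filter.1 hb).1 hab)]
        simp only [card_transl, Finset.sum_const, smul_eq_mul]
      have h7 : ((Z.filter fun z => w * z⁻¹ ∈ S ^ (6 * ρ)).biUnion
          fun z => (S ^ ρ).image (· * z)) ⊆ (S ^ (7 * ρ)).image (· * w) := by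
        intro g hg
        obtain ⟨z, hz, hg⟩ := Finset.mem_biUnion.1 hg
        obtain ⟨u, hu, rfl⟩ := Finset.mem_image.1 hg
        refine Finset.mem_image.2 ⟨u * (w * z⁻¹)⁻¹, ?_, by simp [mul_assoc]⟩
        rw [show 7 * ρ = ρ + 6 * ρ by ring, pow_add]
        exact Finset.mul_mem_mul hu (pow_inv_mem S hinv _ (Finset.mem_filter.1 hz).2)
      have h8 := Finset.card_le_card h7
      rw [h6, card_transl] at h8
      exact_mod_cast h8
    have hC : ((S ^ ρ).card : ℝ) * ∑ z ∈ Z, ∑ y ∈ S ^ (6 * ρ), En S f (y * z) ≤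
        ((S ^ (7 * ρ)).card : ℝ) * ∑ w ∈ S ^ (2 * R), En S f w := by
      have h9 : ∀ z ∈ Z, ∑ y ∈ S ^ (6 * ρ), En S f (y * z) =
          ∑ w ∈ S ^ (2 * R), if w * z⁻¹ ∈ S ^ (6 * ρ) then En S f w else 0 := by
        intro z hz
        rw [← Finset.sum_filter]
        refine Finset.sum_nbij' (fun y => y * z) (fun w => w * z⁻¹) ?_ ?_ ?_ ?_ ?_
        · intro y hy
          rw [Finset.mem_filter]
          refine ⟨hmono (show 6 * ρ + R ≤ 2 * R by omega) ?_, by simpa using hy⟩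
          rw [pow_add]
          exact Finset.mul_mem_mul hy (hZR hz)
        · intro w hw
          exact (Finset.mem_filter.1 hw).2
        · intro y _
          simp
        · intro w _
          simp
        · intro y _
          rfl
      rw [Finset.sum_congr rfl h9, Finset.sum_comm, Finset.mul_sum, Finset.mul_sum]
      refine Finset.sum_le_sum fun w _ => ?_
      rw [← Finset.sum_filter, Finset.sum_const, nsmul_eq_mul]
      have := mul_le_mul_of_nonneg_right (hM w) (En_nonneg S f w)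
      calc _ = _ := by ring
        _ ≤ _ := this
    -- Caccioppoli
    have hD := hcacc f hf (2 * R) (by omega)
    rw [show 2 * (2 * R) = 4 * R by ring] at hD
    push_cast at hD
    have c1 : ((S ^ ρ).card : ℝ) ≤ ((S ^ (2 * ρ)).card : ℝ) := by
      exact_mod_cast Finset.card_le_card (hmono (show ρ ≤ 2 * ρ by omega))
    have c2 : ((S ^ (4 * ρ)).card : ℝ) ≤ ((S ^ (8 * ρ)).card : ℝ) := by
      exact_mod_cast Finset.card_le_card (hmono (show 4 * ρ ≤ 8 * ρ by omega))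
    have c3 : ((S ^ (7 * ρ)).card : ℝ) ≤ ((S ^ (8 * ρ)).card : ℝ) := by
      exact_mod_cast Finset.card_le_card (hmono (show 7 * ρ ≤ 8 * ρ by omega))
    exact decay_arith (by positivity) (by positivity) (by positivity) (by positivity)
      (Finset.sum_nonneg fun _ _ => sq_nonneg _)
      (Finset.sum_nonneg fun _ _ => En_nonneg _ _ _) c1 c2 c3 hA hB hC hD

theorem decay {G : Type*} [Group G] [DecidableEq G] (S : Finset G) (h1 : (1 : G) ∈ S)
    (hinv : ∀ s ∈ S, s⁻¹ ∈ S) (ρ R : ℕ) (hρ : 1 ≤ ρ) (hR : 6 * ρ ≤ R) :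
    ∃ Z : Finset G, Z.card * (S ^ ρ).card ≤ (S ^ (2 * R)).card ∧
      ∀ f : G → ℝ, Harm S f → (∀ z ∈ Z, ∑ x ∈ S ^ (2 * ρ), f (x * z) = 0) →
        (R : ℝ) ^ 2 * ((S ^ ρ).card : ℝ) ^ 2 * ∑ x ∈ S ^ R, f x ^ 2 ≤
          8 * (ρ : ℝ) ^ 2 * (S.card : ℝ) * ((S ^ (8 * ρ)).card : ℝ) ^ 2 *
            ∑ x ∈ S ^ (4 * R), f x ^ 2 :=
  decay_aux S h1 hinv ρ R hρ hR (fun f r h0 => poin S h1 hinv f r h0)
    (fun f hf R hR => cacc S h1 hinv f hf R hR)

end Pool.Agent.SCH
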