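/-
Selection of a good scale (row SEL, helper98).
-/
import Mathlib

set_option autoImplicit false

open Finset

namespace Pool.Agent.SCH

theorem sel (t : ℕ → ℝ) (i₀ : ℕ) (ht : ∀ i, i₀ ≤ i → 0 ≤ t i) (c a A : ℝ)
    (hsum : ∀ N : ℕ, ∑ i ∈ Finset.range N, t (i₀ + i) ≤ c + a * N) (hA : 3 * a < A) (k : ℕ) :
    ∃ i, i₀ ≤ i ∧ t i ≤ A ∧ t (i + k) ≤ A ∧
      ∑ j ∈ Finset.range (k + 1), t (i + j) ≤ A * (k + 1) := by
  by_contra hcon
  push Not at hcon
  have hk : (0 : ℝ) < (k : ℝ) + 1 := by positivity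
  have hshift : ∀ N j : ℕ, j ≤ k →
      ∑ i ∈ range N, t (i₀ + i + j) ≤ ∑ i ∈ range (N + k), t (i₀ + i) := by
    intro N j hj
    have h1 : ∑ i ∈ range N, t (i₀ + i + j) = ∑ i ∈ (range N).image (· + j), t (i₀ + i) := by
      rw [sum_image (by intro x _ y _ h; exact Nat.add_right_cancel h)]
      exact sum_congr rfl fun i _ => by rw [add_assoc]
    rw [h1]
    refine sum_le_sum_of_subset_of_nonneg ?_ (fun i _ _ => ht _ (by omega))
    intro x hx
    obtain ⟨i, hi, rfl⟩ := mem_image.1 hx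
    have := mem_range.1 hi
    exact mem_range.2 (by omega)
  have hpt : ∀ i, i₀ ≤ i →
      A ≤ t i + t (i + k) + (∑ j ∈ range (k + 1), t (i + j)) / ((k : ℝ) + 1) := by
    intro i hi
    have h1 := ht i hi
    have h2 := ht (i + k) (by omega)
    have h3 : 0 ≤ (∑ j ∈ range (k + 1), t (i + j)) / ((k : ℝ) + 1) :=
      div_nonneg (sum_nonneg fun j _ => ht _ (by omega)) hk.le
    by_cases h4 : t i ≤ A
    · by_cases h5 : t (i + k) ≤ A
      · have h6 := hcon i hi h4 h5
        have h7 : A < (∑ j ∈ range (k + 1), t (i + j)) / ((k : ℝ) + 1) := by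
          rw [lt_div_iff₀ hk]
          exact h6
        linarith
      · push Not at h5
        linarith
    · push Not at h4
      linarith
  have hN : ∀ N : ℕ, A * N ≤ 3 * (c + a * (N + k)) := by
    intro N
    set T := ∑ i ∈ range (N + k), t (i₀ + i) with hT
    have h1 : ∑ _i ∈ range N, A ≤ ∑ i ∈ range N, (t (i₀ + i) + t (i₀ + i + k) +
        (∑ j ∈ range (k + 1), t (i₀ + i + j)) / ((k : ℝ) + 1)) :=
      sum_le_sum fun i _ => hpt _ (by omega)
    rw [sum_const, card_range, nsmul_eq_mul, sum_add_distrib, sum_add_distrib, ← sum_div,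
      sum_comm] at h1
    have h2 : ∑ j ∈ range (k + 1), ∑ i ∈ range N, t (i₀ + i + j) ≤ ((k : ℝ) + 1) * T := by
      calc ∑ j ∈ range (k + 1), ∑ i ∈ range N, t (i₀ + i + j) ≤ ∑ _j ∈ range (k + 1), T :=
            sum_le_sum fun j hj => hshift N j (by have := mem_range.1 hj; omega)
        _ = _ := by
            rw [sum_const, card_range, nsmul_eq_mul]
            push_cast
            ring
    have h3 : (∑ j ∈ range (k + 1), ∑ i ∈ range N, t (i₀ + i + j)) / ((k : ℝ) + 1) ≤ T := by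
      rw [div_le_iff₀ hk]
      linarith
    have h4 := hshift N 0 (Nat.zero_le _)
    have h5 := hshift N k le_rfl
    simp only [add_zero] at h4
    have h6 := hsum (N + k)
    push_cast at h6
    nlinarith
  have hpos : 0 < A - 3 * a := by linarith
  obtain ⟨N, hN'⟩ := exists_nat_gt ((3 * c + 3 * a * k) / (A - 3 * a))
  rw [div_lt_iff₀ hpos] at hN'
  have := hN N
  nlinarith

end Pool.Agent.SCH
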