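import Pool.Agent.Lib.SCH.KLEIN
import Pool.Agent.Lib.SCH.DECAY
import Pool.Agent.Lib.SCH.SEL

/-!
# SCH (MP_1f3970_al), row KLEIN: Kleiner's theorem, final form  (helper70)
-/

set_option autoImplicit false

open scoped Pointwise

namespace Pool.Agent.SCH

/-- **Kleiner's theorem**: the harmonic functions of linear growth on a group of polynomial growth
span a space of bounded dimension. -/
theorem klein {G : Type*} [Group G] [DecidableEq G] (S : Finset G) (h1 : (1 : G) ∈ S)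
    (hinv : ∀ s ∈ S, s⁻¹ ∈ S) (hgen : ∀ g : G, ∃ m : ℕ, g ∈ S ^ m) (C : ℝ) (d : ℕ)
    (hgr : ∀ m : ℕ, ((S ^ m).card : ℝ) ≤ C * ((m : ℝ) + 1) ^ d) :
    ∃ D₀ : ℕ, ∀ (D : ℕ) (f : Fin D → G → ℝ), LinearIndependent ℝ f → (∀ j, Harm S (f j)) →
      (∀ j, ∃ K : ℝ, ∀ m : ℕ, ∀ x ∈ S ^ m, |f j x| ≤ K * ((m : ℝ) + 1)) → D ≤ D₀ :=
  klein_of S h1 (fun ρ R hρ hR => decay S h1 hinv ρ R hρ hR)
    (fun t i₀ ht c a A hsum hA k => sel t i₀ ht c a A hsum hA k) hgen C d hgr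

end Pool.Agent.SCH
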