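/-
The harmonic position function of a line system.
-/
import Pool.Agent.Lib.SCH.Growth

set_option autoImplicit false

open scoped Pointwise

namespace Pool.Agent.SCH

/-- a function on the integers with prescribed increments -/
theorem exists_prim (e : ℤ → ℤ) : ∃ h : ℤ → ℤ, ∀ i, h (i + 1) = h i + e i := by
  refine ⟨fun i => ∑ j ∈ Finset.Ico 0 i, e j - ∑ j ∈ Finset.Ico i 0, e j, fun i => ?_⟩
  rcases le_or_gt 0 i with hi | hi
  · have h1 : Finset.Ico (i + 1) 0 = ∅ := Finset.Ico_eq_empty (by omega)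
    have h2 : Finset.Ico i 0 = ∅ := Finset.Ico_eq_empty (by omega)
    have h3 : Finset.Ico 0 (i + 1) = insert i (Finset.Ico 0 i) := by
      ext j; simp only [Finset.mem_Ico, Finset.mem_insert]; omega
    simp only [h1, h2, h3]
    rw [Finset.sum_insert (by simp)]
    simp
    ring
  · have h1 : Finset.Ico 0 (i + 1) = ∅ := Finset.Ico_eq_empty (by omega)
    have h2 : Finset.Ico 0 i = ∅ := Finset.Ico_eq_empty (by omega)
    have h3 : Finset.Ico i 0 = insert i (Finset.Ico (i + 1) 0) := by
      ext j; simp only [Finset.mem_Ico, Finset.mem_insert]; omega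
    simp only [h1, h2, h3]
    rw [Finset.sum_insert (by simp)]
    simp

variable {ι : Type*} {n : ℕ} {τ : ι → Equiv.Perm ℤ}

open Classical in
/-- number of generators which move `i` to `i + 1` -/
noncomputable def cc [Fintype ι] (τ : ι → Equiv.Perm ℤ) (i : ℤ) : ℕ :=
  ((gS τ).filter fun g : LG τ => (g : Equiv.Perm ℤ) i = i + 1).card

theorem cc_pos [Fintype ι] (h : LineSys n τ) (i : ℤ) : 0 < cc τ i := by
  obtain ⟨s, hs⟩ := h.up i
  exact Finset.card_pos.2 ⟨gen τ s, Finset.mem_filter.2 ⟨mem_gS.2 (Or.inr ⟨s, rfl⟩), hs⟩⟩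

theorem cc_le [Fintype ι] (i : ℤ) : cc τ i ≤ (gS τ).card := Finset.card_filter_le _ _

/-- the harmonic position function -/
theorem exists_pos [Fintype ι] (h : LineSys n τ) (hn : 0 < n) :
    ∃ (f : ℤ → ℤ) (M : ℤ), 0 < M ∧ (∀ i, f i < f (i + 1) ∧ f (i + 1) ≤ f i + M) ∧
      ∀ i, ∑ g ∈ gS τ, (f ((g : Equiv.Perm ℤ) i) - f i) = 0 := by
  classical
  set M : ℕ := (gS τ).card.factorial with hM
  have hMpos : 0 < M := Nat.factorial_pos _
  have hdvd : ∀ i, cc τ i ∣ M := fun i => Nat.dvd_factorial (cc_pos h i) (cc_le i)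
  obtain ⟨f, hf⟩ := exists_prim fun i => ((M / cc τ i : ℕ) : ℤ)
  have hmul : ∀ i, (cc τ i : ℤ) * ((M / cc τ i : ℕ) : ℤ) = M := fun i => by
    exact_mod_cast Nat.mul_div_cancel' (hdvd i)
  refine ⟨f, M, by exact_mod_cast hMpos, fun i => ?_, fun i => ?_⟩
  · rw [hf]
    have h1 : 0 < M / cc τ i := Nat.div_pos (Nat.le_of_dvd hMpos (hdvd i)) (cc_pos h i)
    have h2 : M / cc τ i ≤ M := Nat.div_le_self _ _
    constructor
    · have : (0 : ℤ) < ((M / cc τ i : ℕ) : ℤ) := by exact_mod_cast h1
      linarith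
    · have : ((M / cc τ i : ℕ) : ℤ) ≤ M := by exact_mod_cast h2
      linarith
  · have hterm : ∀ g ∈ gS τ, f ((g : Equiv.Perm ℤ) i) - f i =
        (if (g : Equiv.Perm ℤ) i = i + 1 then ((M / cc τ i : ℕ) : ℤ) else 0) -
          (if (g : Equiv.Perm ℤ) (i - 1) = i - 1 + 1 then ((M / cc τ (i - 1) : ℕ) : ℤ) else 0) := by
      intro g hg
      have hself := gS_mul_self h hn hg
      have hgg : ∀ x : ℤ, (g : Equiv.Perm ℤ) ((g : Equiv.Perm ℤ) x) = x := fun x => by
        have := congrArg (fun k : LG τ => (k : Equiv.Perm ℤ) x) hself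
        simpa using this
      rcases gS_cases h hg i with h1 | h1 | h1
      · rw [if_neg (by rw [h1]; omega), if_neg, h1]
        · ring
        · intro h2
          have h3 := congrArg (g : Equiv.Perm ℤ) h2
          rw [hgg, sub_add_cancel, h1] at h3
          omega
      · rw [if_pos h1, if_neg, h1, hf]
        · ring
        · intro h2
          have h3 := congrArg (g : Equiv.Perm ℤ) h2
          rw [hgg, sub_add_cancel, h1] at h3
          omega
      · rw [if_neg (by rw [h1]; omega), if_pos, h1]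
        · have := hf (i - 1)
          rw [sub_add_cancel] at this
          rw [this]; ring
        · rw [sub_add_cancel, ← h1, hgg]
    rw [Finset.sum_congr rfl hterm, Finset.sum_sub_distrib, Finset.sum_ite, Finset.sum_ite]
    simp only [Finset.sum_const_zero, add_zero, Finset.sum_const, nsmul_eq_mul]
    have e1 := hmul i
    have e2 := hmul (i - 1)
    unfold cc at e1 e2 ⊢
    rw [e1, e2, sub_self]

end Pool.Agent.SCH
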