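/-
In a line system with minimal maximal cycle length no nontrivial element fixes a long interval.
-/
import Pool.Agent.Lib.SCH.Lim

set_option autoImplicit false

namespace Pool.Agent.SCH

variable {ι : Type*} {n : ℕ} {τ : ι → Equiv.Perm ℤ}

/-- an `L`-cycle inside the interval `[a, b]` -/
def HasCyc (τ : ι → Equiv.Perm ℤ) (L : ℕ) (a b : ℤ) : Prop :=
  ∃ (w : List ι) (c : ℤ), Function.minimalPeriod (wd τ w) c = L ∧
    ∀ j : ℕ, a ≤ (wd τ w ^ j) c ∧ (wd τ w ^ j) c ≤ b

/-- an `L`-cycle inside the interval `[a, c]` which contains `c` -/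
def TopCyc (τ : ι → Equiv.Perm ℤ) (L : ℕ) (a c : ℤ) : Prop :=
  ∃ w : List ι, Function.minimalPeriod (wd τ w) c = L ∧
    ∀ j : ℕ, a ≤ (wd τ w ^ j) c ∧ (wd τ w ^ j) c ≤ c

theorem TopCyc.mono {L : ℕ} {a a' c : ℤ} (h : TopCyc τ L a c) (ha : a' ≤ a) : TopCyc τ L a' c := by
  obtain ⟨w, h1, h2⟩ := h
  exact ⟨w, h1, fun j => ⟨ha.trans (h2 j).1, (h2 j).2⟩⟩

theorem HasCyc.top {L : ℕ} {a b : ℤ} (h : HasCyc τ L a b) : ∃ c, a ≤ c ∧ c ≤ b ∧ TopCyc τ L a c := by
  classical
  obtain ⟨w, c, h1, h2⟩ := h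
  -- the maximum of the cycle
  have hfin : (Set.range fun j : ℕ => (wd τ w ^ j) c).Finite :=
    (Set.finite_Icc a b).subset (by rintro _ ⟨j, rfl⟩; exact h2 j)
  obtain ⟨m, ⟨j0, hj0⟩, hm⟩ := Set.exists_max_image (Set.range fun j : ℕ => (wd τ w ^ j) c) id hfin
    ⟨_, ⟨0, rfl⟩⟩
  simp only [id] at hm
  have hmem : ∀ j : ℕ, (wd τ w ^ j) m = (wd τ w ^ (j + j0)) c := by
    intro j
    rw [pow_add, Equiv.Perm.mul_apply]
    exact congrArg _ hj0.symm
  refine ⟨m, ?_, ?_, w, ?_, fun j => ⟨?_, ?_⟩⟩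
  · have := (h2 j0).1; rw [← hj0]; exact this
  · have := (h2 j0).2; rw [← hj0]; exact this
  · have hm0 : m = (wd τ w)^[j0] c := by rw [Equiv.Perm.iterate_eq_pow]; exact hj0.symm
    rw [hm0, ← h1]
    by_cases hp : c ∈ Function.periodicPts (wd τ w)
    · exact Function.minimalPeriod_apply_iterate hp j0
    · have h3 : Function.minimalPeriod (wd τ w) c = 0 :=
        Function.minimalPeriod_eq_zero_iff_notMem_periodicPts.2 hp
      rw [h3]
      refine Function.minimalPeriod_eq_zero_iff_notMem_periodicPts.2 ?_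
      rintro ⟨k, hk, hk2⟩
      apply hp
      refine ⟨k, hk, ?_⟩
      have h4 : (wd τ w)^[j0] ((wd τ w)^[k] c) = (wd τ w)^[j0] c := by
        rw [← Function.iterate_add_apply, add_comm, Function.iterate_add_apply]
        exact hk2
      rw [Equiv.Perm.iterate_eq_pow (wd τ w) j0] at h4
      exact (wd τ w ^ j0).injective h4
  · rw [hmem]; exact (h2 _).1
  · rw [hmem]
    exact hm _ ⟨_, rfl⟩

/-- push a cycle to the right by one step -/
theorem TopCyc.push (h : LineSys n τ) (hn : 0 < n) {L : ℕ} {a c : ℤ} (hc : TopCyc τ L a c) :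
    TopCyc τ L (a - 1) (c + 1) := by
  obtain ⟨w, h1, h2⟩ := hc
  obtain ⟨s, hs⟩ := h.up c
  have hinv : τ s * τ s = 1 := h.mul_self hn s
  have hs' : τ s (c + 1) = c := h.invol_up hn s c hs
  have hpow : ∀ j : ℕ, wd τ (s :: (w ++ [s])) ^ j = τ s * wd τ w ^ j * τ s := by
    intro j
    induction j with
    | zero => simp [hinv]
    | succ j ih =>
      rw [pow_succ, ih, wd_cons, wd_append, wd_singleton, pow_succ]
      calc τ s * wd τ w ^ j * τ s * (τ s * (wd τ w * τ s))
          = τ s * wd τ w ^ j * (τ s * τ s) * (wd τ w * τ s) := by group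
        _ = τ s * (wd τ w ^ j * wd τ w) * τ s := by rw [hinv]; group
  refine ⟨s :: (w ++ [s]), ?_, fun j => ?_⟩
  · have e1 : ∀ k : ℕ, Function.IsPeriodicPt (wd τ (s :: (w ++ [s]))) k (c + 1) ↔
        Function.IsPeriodicPt (wd τ w) k c := by
      intro k
      unfold Function.IsPeriodicPt Function.IsFixedPt
      rw [Equiv.Perm.iterate_eq_pow, Equiv.Perm.iterate_eq_pow, hpow, Equiv.Perm.mul_apply,
        Equiv.Perm.mul_apply, hs']
      constructor
      · intro h3
        have h4 := congrArg (τ s) h3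
        rw [h.invol hn, hs'] at h4
        exact h4
      · intro h3
        rw [h3, hs]
    rw [← h1]
    refine Nat.dvd_antisymm ?_ ?_
    · refine Function.IsPeriodicPt.minimalPeriod_dvd ((e1 _).2 ?_)
      exact Function.isPeriodicPt_minimalPeriod _ _
    · refine Function.IsPeriodicPt.minimalPeriod_dvd ((e1 _).1 ?_)
      exact Function.isPeriodicPt_minimalPeriod _ _
  · rw [hpow, Equiv.Perm.mul_apply, Equiv.Perm.mul_apply, hs']
    have h3 := h2 j
    have h4 := abs_le.1 (h.disp s ((wd τ w ^ j) c))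
    constructor
    · linarith [h4.1, h3.1]
    · linarith [h4.2, h3.2]

theorem TopCyc.pushes (h : LineSys n τ) (hn : 0 < n) {L : ℕ} (k : ℕ) :
    ∀ {a c : ℤ}, TopCyc τ L a c → TopCyc τ L (a - k) (c + k) := by
  induction k with
  | zero => intro a c hc; simpa using hc
  | succ k ih =>
    intro a c hc
    have := ih (hc.push h hn)
    have e1 : a - 1 - (k : ℤ) = a - ((k + 1 : ℕ) : ℤ) := by push_cast; ring
    have e2 : c + 1 + (k : ℤ) = c + ((k + 1 : ℕ) : ℤ) := by push_cast; ring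
    rwa [e1, e2] at this

/-- an element which fixes all points of an interval to the left of `z` does not move `z` -/
theorem touch (h : LineSys n τ) (hn : 0 < n) {L N : ℕ}
    (hL : ∀ (w : List ι) (c : ℤ), Function.minimalPeriod (wd τ w) c ≤ L)
    (hN : ∀ a : ℤ, HasCyc τ L a (a + N)) (v : List ι) (z : ℤ)
    (hfix : ∀ x : ℤ, z - 2 * N - 2 ≤ x → x < z → wd τ v x = x) : wd τ v z = z := by
  by_contra hz
  obtain ⟨c, hc1, hc2, hc3⟩ := (hN (z - 1 - N)).top
  obtain ⟨k, hk⟩ : ∃ k : ℕ, z = c + k := ⟨(z - c).toNat, by omega⟩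
  have h1 := hc3.pushes h hn k
  rw [← hk] at h1
  have h2 : TopCyc τ L (z - 2 * N - 2) z := h1.mono (by omega)
  obtain ⟨w, hw1, hw2⟩ := h2
  have hL0 : 0 < L := by rw [← hw1]; exact h.period_pos hn w z
  have h3 := cyc (wd τ w) (wd τ v) z L hw1 hL0 (fun i hi1 hi2 => ?_) hz
  · rw [← wd_append] at h3
    rcases h3 with h3 | h3
    · exact absurd h3 (h.period_pos hn _ _).ne'
    · exact absurd h3 (not_lt.2 (hL _ _))
  · refine hfix _ (hw2 i).1 (lt_of_le_of_ne (hw2 i).2 fun h4 => ?_)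
    rw [← Equiv.Perm.iterate_eq_pow] at h4
    rw [← hw1] at hi2
    have := (Function.iterate_eq_iterate_iff_of_lt_minimalPeriod (f := wd τ w) (x := z) hi2
      (by omega : 0 < Function.minimalPeriod (wd τ w) z)).1 (by simpa using h4)
    omega

end Pool.Agent.SCH
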