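/-
Choice of a line system with minimal maximal cycle length; in such a system an element which fixes a
long interval is trivial.
-/
import Pool.Agent.Lib.SCH.Touch

set_option autoImplicit false

namespace Pool.Agent.SCH

variable {ι : Type*} {n : ℕ}

theorem exists_min (hn : 0 < n) (hne : ∃ τ : ι → Equiv.Perm ℤ, LineSys n τ) :
    ∃ (L : ℕ) (τ : ι → Equiv.Perm ℤ), LineSys n τ ∧
      (∀ (w : List ι) (c : ℤ), Function.minimalPeriod (wd τ w) c ≤ L) ∧
      ∀ τ' : ι → Equiv.Perm ℤ, LineSys n τ' →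
        ∃ (w : List ι) (c : ℤ), L ≤ Function.minimalPeriod (wd τ' w) c := by
  classical
  have hex : ∃ L : ℕ, ∃ τ : ι → Equiv.Perm ℤ, LineSys n τ ∧
      ∀ (w : List ι) (c : ℤ), Function.minimalPeriod (wd τ w) c ≤ L := by
    obtain ⟨τ, hτ⟩ := hne
    exact ⟨n, τ, hτ, fun w c => hτ.period_le hn w c⟩
  obtain ⟨τ, h1, h2⟩ := Nat.find_spec hex
  refine ⟨Nat.find hex, τ, h1, h2, fun τ' hτ' => ?_⟩
  by_contra hcon
  push Not at hcon
  have hpos : 0 < Nat.find hex := lt_of_le_of_lt (Nat.zero_le _) (hcon [] 0)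
  refine Nat.find_min hex (m := Nat.find hex - 1) (by omega) ⟨τ', hτ', fun w c => ?_⟩
  have := hcon w c
  omega

theorem syndetic [Finite ι] {τ : ι → Equiv.Perm ℤ} (h : LineSys n τ) (hn : 0 < n) {L : ℕ}
    (hL : ∀ (w : List ι) (c : ℤ), Function.minimalPeriod (wd τ w) c ≤ L)
    (hmin : ∀ τ' : ι → Equiv.Perm ℤ, LineSys n τ' →
      ∃ (w : List ι) (c : ℤ), L ≤ Function.minimalPeriod (wd τ' w) c) :
    ∃ N : ℕ, ∀ a : ℤ, HasCyc τ L a (a + N) := by
  by_contra hcon
  push Not at hcon
  choose a ha using hcon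
  let m : ℕ → ℤ := fun K => a (2 * K) + K
  have hW : ∀ K, Win τ (fun i => m K + i) (fun s i => τ s (m K + i) - (m K + i)) K := by
    intro K
    refine ⟨fun i j _ _ hij => by simpa using hij, fun s i _ => ⟨h.disp s _, ?_⟩, fun i _ => ?_⟩
    · ring
    · obtain ⟨s, hs⟩ := h.up (m K + i)
      exact ⟨s, by simp only [hs]; ring⟩
  obtain ⟨τ', h1, h2⟩ := limit τ hn h.exp (fun K i => m K + i)
    (fun K s i => τ s (m K + i) - (m K + i)) hW
  obtain ⟨w, c, hwc⟩ := hmin τ' h1
  set R : ℕ := c.natAbs + n * w.length with hR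
  obtain ⟨K, hK1, hK2⟩ := h2 R (R + 1)
  have hK2' : ∀ (s : ι) (i : ℤ), |i| ≤ (R : ℤ) →
      (fun s => (τ' s : ℤ → ℤ)) s i = i + (τ s (m K + i) - (m K + i)) := fun s i hi => hK2 s i hi
  have hwf : ∀ j : ℕ, j ≤ n → (wd τ w ^ j) (m K + c) = m K + (wd τ' w ^ j) c ∧
      |(wd τ' w ^ j) c| ≤ R := by
    intro j hj
    have hlen : (wpow w j).length ≤ n * w.length := by
      rw [length_wpow]; exact Nat.mul_le_mul_right _ hj
    have hi : |c| + ((wpow w j).length : ℤ) ≤ (R : ℤ) := by
      rw [hR, Int.abs_eq_natAbs]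
      push_cast
      have : ((wpow w j).length : ℤ) ≤ ((n * w.length : ℕ) : ℤ) := by exact_mod_cast hlen
      push_cast at this
      linarith
    obtain ⟨h3, h4⟩ := transfer (hW K) (fun s => (τ' s : ℤ → ℤ)) hK2' (by omega) (wpow w j) c hi
    rw [← wd_eq_wf, wd_wpow] at h3 h4
    rw [wd_wpow] at h3
    exact ⟨h3, h4.trans hi⟩
  have hper : Function.minimalPeriod (wd τ w) (m K + c) = Function.minimalPeriod (wd τ' w) c := by
    have hP1 := h.period_pos hn w (m K + c)
    have hP2 := h1.period_pos hn w c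
    have hQ1 := h.period_le hn w (m K + c)
    have hQ2 := h1.period_le hn w c
    refine le_antisymm ?_ ?_
    · refine Function.IsPeriodicPt.minimalPeriod_le hP2 ?_
      have h5 := (hwf _ hQ2).1
      have h6 : (wd τ' w ^ Function.minimalPeriod (wd τ' w) c) c = c := by
        rw [← Equiv.Perm.iterate_eq_pow]; exact Function.iterate_minimalPeriod
      rw [h6] at h5
      change (wd τ w)^[_] _ = _
      rw [Equiv.Perm.iterate_eq_pow]; exact h5
    · refine Function.IsPeriodicPt.minimalPeriod_le hP1 ?_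
      have h5 := (hwf _ hQ1).1
      have h6 : (wd τ w ^ Function.minimalPeriod (wd τ w) (m K + c)) (m K + c) = m K + c := by
        rw [← Equiv.Perm.iterate_eq_pow]; exact Function.iterate_minimalPeriod
      rw [h6] at h5
      change (wd τ' w)^[_] _ = _
      rw [Equiv.Perm.iterate_eq_pow]
      linarith
  refine ha (2 * K) ⟨w, m K + c, ?_, fun j => ?_⟩
  · exact le_antisymm (hL _ _) (by rw [hper]; exact hwc)
  · have hred : (wd τ w ^ j) (m K + c) = (wd τ w ^ (j % n)) (m K + c) := by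
      conv_lhs => rw [← Nat.mod_add_div j n, pow_add, pow_mul, h.exp, one_pow, mul_one]
    have hjn : j % n ≤ n := (Nat.mod_lt j hn).le
    obtain ⟨h5, h6⟩ := hwf _ hjn
    rw [hred, h5]
    have h7 := abs_le.1 h6
    have h8 : (R : ℤ) < K := by exact_mod_cast hK1
    have hm : m K = a (2 * K) + K := rfl
    have h9 : a (2 * K) + ((2 * K : ℕ) : ℤ) = m K + K := by rw [hm]; push_cast; ring
    rw [h9, hm]
    constructor <;> linarith [h7.1, h7.2]

theorem HasCyc.refl {τ : ι → Equiv.Perm ℤ} {L : ℕ} {a b : ℤ} (hc : HasCyc τ L a b) :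
    HasCyc (fun s => ((Equiv.neg ℤ).trans ((τ s).trans (Equiv.neg ℤ)) : Equiv.Perm ℤ)) L (-b) (-a) := by
  obtain ⟨w, c, h1, h2⟩ := hc
  have hp : ∀ k : ℕ, ((Equiv.neg ℤ).trans ((wd τ w).trans (Equiv.neg ℤ)) : Equiv.Perm ℤ) ^ k =
      (Equiv.neg ℤ).trans ((wd τ w ^ k).trans (Equiv.neg ℤ)) := by
    intro k
    induction k with
    | zero => ext i; simp
    | succ k ih =>
      rw [pow_succ', ih, pow_succ']
      ext i
      simp
  refine ⟨w, -c, ?_, fun j => ?_⟩
  · rw [wd_refl, ← h1]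
    have e1 : ∀ k : ℕ, Function.IsPeriodicPt
        ((Equiv.neg ℤ).trans ((wd τ w).trans (Equiv.neg ℤ)) : Equiv.Perm ℤ) k (-c) ↔
        Function.IsPeriodicPt (wd τ w) k c := by
      intro k
      unfold Function.IsPeriodicPt Function.IsFixedPt
      rw [Equiv.Perm.iterate_eq_pow, Equiv.Perm.iterate_eq_pow, hp]
      simp
    refine Nat.dvd_antisymm ?_ ?_
    · exact Function.IsPeriodicPt.minimalPeriod_dvd ((e1 _).2 (Function.isPeriodicPt_minimalPeriod _ _))
    · exact Function.IsPeriodicPt.minimalPeriod_dvd ((e1 _).1 (Function.isPeriodicPt_minimalPeriod _ _))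
  · rw [wd_refl, hp]
    have := h2 j
    simp only [Equiv.trans_apply, Equiv.neg_apply, neg_neg]
    constructor <;> linarith [this.1, this.2]

theorem rigid [Finite ι] {τ : ι → Equiv.Perm ℤ} (h : LineSys n τ) (hn : 0 < n) {L : ℕ}
    (hL : ∀ (w : List ι) (c : ℤ), Function.minimalPeriod (wd τ w) c ≤ L)
    (hmin : ∀ τ' : ι → Equiv.Perm ℤ, LineSys n τ' →
      ∃ (w : List ι) (c : ℤ), L ≤ Function.minimalPeriod (wd τ' w) c) :
    ∃ W : ℕ, ∀ (v : List ι), (∀ x : ℤ, 0 ≤ x → x < W → wd τ v x = x) → wd τ v = 1 := by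
  classical
  obtain ⟨N, hN⟩ := syndetic h hn hL hmin
  refine ⟨2 * N + 2, fun v hv => ?_⟩
  push_cast at hv
  by_contra hne
  obtain ⟨y, hy⟩ : ∃ y, wd τ v y ≠ y := by
    by_contra hcon
    push Not at hcon
    exact hne (Equiv.ext hcon)
  rcases le_or_gt 0 y with hy0 | hy0
  · -- moved point on the right
    have hex : ∃ k : ℕ, wd τ v (k : ℤ) ≠ k := ⟨y.toNat, by rw [Int.toNat_of_nonneg hy0]; exact hy⟩
    have h1 := Nat.find_spec hex
    have h2 : ∀ x : ℤ, 0 ≤ x → x < (Nat.find hex : ℕ) → wd τ v x = x := by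
      intro x hx1 hx2
      have h3 := Nat.find_min hex (m := x.toNat) (by omega)
      rw [Int.toNat_of_nonneg hx1] at h3
      by_contra h4
      exact h3 h4
    have h5 : (2 * (N : ℤ) + 2) ≤ (Nat.find hex : ℕ) := by
      by_contra h6
      push Not at h6
      exact h1 (hv _ (by positivity) h6)
    exact h1 (touch h hn hL hN v _ fun x hx1 hx2 => h2 x (by linarith) hx2)
  · -- moved point on the left: reflect
    have hex : ∃ k : ℕ, wd τ v (2 * N + 1 - (k : ℤ)) ≠ 2 * N + 1 - k :=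
      ⟨(2 * N + 1 - y).toNat, by
        rw [Int.toNat_of_nonneg (by omega)]
        have e : 2 * (N : ℤ) + 1 - (2 * N + 1 - y) = y := by ring
        rw [e]; exact hy⟩
    have h1 := Nat.find_spec hex
    set k := Nat.find hex with hk
    have h2 : ∀ x : ℤ, 2 * (N : ℤ) + 1 - k < x → x ≤ 2 * N + 1 → wd τ v x = x := by
      intro x hx1 hx2
      have h3 := Nat.find_min hex (m := (2 * (N : ℤ) + 1 - x).toNat) (by omega)
      rw [Int.toNat_of_nonneg (by omega)] at h3
      have e : 2 * (N : ℤ) + 1 - (2 * N + 1 - x) = x := by ring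
      rw [e] at h3
      by_contra h4
      exact h3 h4
    have h5 : (2 * (N : ℤ) + 2) ≤ k := by
      by_contra h6
      push Not at h6
      exact h1 (hv _ (by omega) (by omega))
    have hN' : ∀ a : ℤ, HasCyc
        (fun s => ((Equiv.neg ℤ).trans ((τ s).trans (Equiv.neg ℤ)) : Equiv.Perm ℤ)) L a (a + N) := by
      intro a
      have := (hN (-a - N)).refl
      have e1 : -(-a - (N : ℤ) + N) = a := by ring
      have e2 : -(-a - (N : ℤ)) = a + N := by ring
      rwa [e1, e2] at this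
    have hL' : ∀ (w : List ι) (c : ℤ), Function.minimalPeriod
        (wd (fun s => ((Equiv.neg ℤ).trans ((τ s).trans (Equiv.neg ℤ)) : Equiv.Perm ℤ)) w) c ≤ L := by
      intro w c
      have hp : ∀ k : ℕ, ((Equiv.neg ℤ).trans ((wd τ w).trans (Equiv.neg ℤ)) : Equiv.Perm ℤ) ^ k =
          (Equiv.neg ℤ).trans ((wd τ w ^ k).trans (Equiv.neg ℤ)) := by
        intro k
        induction k with
        | zero => ext i; simp
        | succ k ih =>
          rw [pow_succ', ih, pow_succ']
          ext i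
          simp
      refine (Function.IsPeriodicPt.minimalPeriod_le (h.period_pos hn w (-c)) ?_).trans (hL w (-c))
      rw [wd_refl]
      unfold Function.IsPeriodicPt Function.IsFixedPt
      rw [Equiv.Perm.iterate_eq_pow, hp]
      simp only [Equiv.trans_apply, Equiv.neg_apply]
      have h7 : (wd τ w ^ Function.minimalPeriod (wd τ w) (-c)) (-c) = -c := by
        rw [← Equiv.Perm.iterate_eq_pow]; exact Function.iterate_minimalPeriod
      rw [h7, neg_neg]
    have h6 := touch (h.refl hn) hn hL' hN' v (-(2 * (N : ℤ) + 1 - k)) (fun x hx1 hx2 => by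
      rw [wd_refl]
      simp only [Equiv.trans_apply, Equiv.neg_apply]
      rw [h2 (-x) (by linarith) (by linarith), neg_neg])
    rw [wd_refl] at h6
    simp only [Equiv.trans_apply, Equiv.neg_apply, neg_neg] at h6
    exact h1 (neg_injective h6)

end Pool.Agent.SCH
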