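/-
There is no line system of finite exponent.
-/
import Pool.Agent.Lib.SCH.Rigid
import Pool.Agent.Lib.SCH.Pos
import Pool.Agent.Lib.SCH.FIN
import Pool.Agent.Lib.SCH.KLEIN2

set_option autoImplicit false

open scoped Pointwise

namespace Pool.Agent.SCH

variable {ι : Type*} {n : ℕ}

theorem infinite_LG {τ : ι → Equiv.Perm ℤ} (h : LineSys n τ) : ¬ Finite (LG τ) := by
  intro hfin
  have hex : ∀ k : ℕ, ∃ g : LG τ, (g : Equiv.Perm ℤ) 0 = k := by
    intro k
    induction k with
    | zero => exact ⟨1, by simp⟩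
    | succ k ih =>
      obtain ⟨g, hg⟩ := ih
      obtain ⟨s, hs⟩ := h.up k
      refine ⟨gen τ s * g, ?_⟩
      rw [Subgroup.coe_mul, Equiv.Perm.mul_apply, hg]
      change τ s (k : ℤ) = _
      rw [hs]; push_cast; rfl
  choose g hg using hex
  have hinj : Function.Injective g := fun a b hab => by
    have := hg a
    rw [hab, hg b] at this
    exact_mod_cast this.symm
  exact not_injective_infinite_finite g hinj

theorem finite_LG [Fintype ι] {τ : ι → Equiv.Perm ℤ} (h : LineSys n τ) (hn : 0 < n) {W : ℕ}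
    (hW : ∀ v : List ι, (∀ x : ℤ, 0 ≤ x → x < W → wd τ v x = x) → wd τ v = 1) : Finite (LG τ) := by
  classical
  obtain ⟨f, M, hM, hf, hharm⟩ := exists_pos h hn
  have hmono : StrictMono f := strictMono_int_of_lt_succ fun i => (hf i).1
  obtain ⟨D₀, hD₀⟩ := klein (gS τ) one_mem_gS (fun s hs => inv_mem_gS h hn hs)
    (fun g => gS_gen h hn g) (2 ^ W) W (fun m => growth h hn hW m)
  refine finite_of_rank (G := LG τ) (Y := ℤ) n hn (fun g => ?_)
    (fun y g => f ((g : Equiv.Perm ℤ) y)) (fun y g k => rfl) (fun k hk => ?_) D₀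
    (fun D y hy => hD₀ D _ hy (fun j => ?_) fun j => ?_)
  · obtain ⟨w, hw⟩ := exists_wd h hn g
    refine Subtype.ext ?_
    rw [Subgroup.coe_pow, hw]
    exact h.exp w
  · refine Subtype.ext (Equiv.ext fun y => ?_)
    have h1 := congrFun (hk y) 1
    simp only [Subgroup.coe_one, Equiv.Perm.coe_one, id] at h1
    exact hmono.injective h1
  · intro x
    have h1 := hharm ((x : Equiv.Perm ℤ) (y j))
    have h2 : ((∑ g ∈ gS τ, (f ((g : Equiv.Perm ℤ) ((x : Equiv.Perm ℤ) (y j))) -
        f ((x : Equiv.Perm ℤ) (y j))) : ℤ) : ℝ) = 0 := by rw [h1]; simp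
    push_cast at h2
    exact h2
  · have hstep : ∀ (m : ℕ) (x : LG τ), x ∈ gS τ ^ m →
        |f ((x : Equiv.Perm ℤ) (y j)) - f (y j)| ≤ M * m := by
      intro m
      induction m with
      | zero =>
        intro x hx
        rw [pow_zero, Finset.mem_one] at hx
        subst hx
        simp
      | succ m ih =>
        intro x hx
        rw [pow_succ'] at hx
        obtain ⟨s, hs, x', hx', rfl⟩ := Finset.mem_mul.1 hx
        have h1 := abs_le.1 (ih x' hx')
        rw [Subgroup.coe_mul, Equiv.Perm.mul_apply]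
        set z := (x' : Equiv.Perm ℤ) (y j) with hz
        have h2 : |f ((s : Equiv.Perm ℤ) z) - f z| ≤ M := by
          rcases gS_cases h hs z with h3 | h3 | h3
          · rw [h3, sub_self, abs_zero]; exact hM.le
          · rw [h3, abs_le]
            have := hf z
            constructor <;> linarith [this.1, this.2]
          · rw [h3, abs_le]
            have := hf (z - 1)
            rw [sub_add_cancel] at this
            constructor <;> linarith [this.1, this.2]
        have h3 := abs_le.1 h2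
        push_cast
        rw [abs_le]
        constructor <;> nlinarith [h1.1, h1.2, h3.1, h3.2]
    refine ⟨|(f (y j) : ℝ)| + M, fun m x hx => ?_⟩
    have h1 := hstep m x hx
    have h2 : |(f ((x : Equiv.Perm ℤ) (y j)) : ℝ) - f (y j)| ≤ M * m := by exact_mod_cast h1
    have h3 : |(f ((x : Equiv.Perm ℤ) (y j)) : ℝ)| ≤ |(f (y j) : ℝ)| + M * m := by
      have := abs_sub_abs_le_abs_sub (f ((x : Equiv.Perm ℤ) (y j)) : ℝ) (f (y j))
      linarith
    have hM' : (0 : ℝ) < M := by exact_mod_cast hM
    have h4 := abs_nonneg (f (y j) : ℝ)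
    have h5 : (0 : ℝ) ≤ m := by positivity
    change |((f ((x : Equiv.Perm ℤ) (y j)) : ℤ) : ℝ)| ≤ _
    nlinarith

/-- **No line system.** -/
theorem no_line [Finite ι] (hn : 0 < n) : ¬ ∃ τ : ι → Equiv.Perm ℤ, LineSys n τ := by
  intro hne
  have : Fintype ι := Fintype.ofFinite ι
  obtain ⟨L, τ, h, hL, hmin⟩ := exists_min hn hne
  obtain ⟨W, hW⟩ := rigid h hn hL hmin
  exact infinite_LG h (finite_LG h hn hW)

end Pool.Agent.SCH
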