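/-
Windows of arbitrary length in a group with unbounded orbits and Schreier graphs of degree at most two.
-/
import Pool.Agent.Lib.SCH.Lim

set_option autoImplicit false

namespace Pool.Agent.SCH

variable {X ι : Type*} (σ : ι → Equiv.Perm X)

/-- the `j`-th point of the trajectory of `x` under the word `w` -/
def traj (w : List ι) (x : X) (j : ℕ) : X := wd σ (w.drop (w.length - j)) x

theorem traj_succ (w : List ι) (x : X) {j : ℕ} (hj : j < w.length) :
    ∃ s, traj σ w x (j + 1) = σ s (traj σ w x j) := by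
  have h1 : w.length - (j + 1) < w.length := by omega
  refine ⟨w[w.length - (j + 1)], ?_⟩
  unfold traj
  rw [List.drop_eq_getElem_cons h1, wd_cons, Equiv.Perm.mul_apply]
  have : w.length - (j + 1) + 1 = w.length - j := by omega
  rw [this]

theorem exists_short {x y : X} (w : List ι) (hw : wd σ w x = y) :
    ∃ u : List ι, wd σ u x = y ∧ ∀ i j, i ≤ u.length → j ≤ u.length →
      traj σ u x i = traj σ u x j → i = j := by
  classical
  have hex : ∃ m : ℕ, ∃ u : List ι, u.length = m ∧ wd σ u x = y := ⟨_, w, rfl, hw⟩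
  obtain ⟨u, hu1, hu2⟩ := Nat.find_spec hex
  refine ⟨u, hu2, ?_⟩
  have key : ∀ i j, i < j → j ≤ u.length → traj σ u x i ≠ traj σ u x j := by
    intro i j hij hj heq
    refine Nat.find_min hex (m := u.length - j + i) (by omega)
      ⟨u.take (u.length - j) ++ u.drop (u.length - i), ?_, ?_⟩
    · rw [List.length_append, List.length_take, List.length_drop]
      omega
    · rw [wd_append, Equiv.Perm.mul_apply]
      change wd σ (u.take (u.length - j)) (traj σ u x i) = y
      rw [heq]
      unfold traj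
      rw [← Equiv.Perm.mul_apply, ← wd_append, List.take_append_drop]
      exact hu2
  intro i j hi hj h
  rcases lt_trichotomy i j with h1 | h1 | h1
  · exact absurd h (key i j h1 hj)
  · exact h1
  · exact absurd h.symm (key j i h1 hi)

/-- unbounded orbits give injective trajectories of every length -/
theorem exists_long [Finite ι] (hunb : ∀ N : ℕ, ∃ x : X, (N : ℕ∞) < {y | ∃ w : List ι, wd σ w x = y}.encard)
    (m : ℕ) : ∃ (x : X) (u : List ι), u.length = m ∧ ∀ i j, i ≤ m → j ≤ m →
      traj σ u x i = traj σ u x j → i = j := by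
  classical
  have hfin : {l : List ι | l.length < m}.Finite := List.finite_length_lt ι m
  obtain ⟨x, hx⟩ := hunb {l : List ι | l.length < m}.ncard
  by_contra hcon
  push Not at hcon
  have hsub : {y | ∃ w : List ι, wd σ w x = y} ⊆ (fun w => wd σ w x) '' {l : List ι | l.length < m} := by
    rintro y ⟨w, hw⟩
    obtain ⟨u, hu1, hu2⟩ := exists_short σ w hw
    refine ⟨u, ?_, hu1⟩
    by_contra hlen
    have hlen : m ≤ u.length := not_lt.1 fun h => hlen h
    obtain ⟨i, j, hi, hj, h1, h2⟩ := hcon x (u.drop (u.length - m)) (by rw [List.length_drop]; omega)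
    apply h2
    have htr : ∀ k, k ≤ m → traj σ (u.drop (u.length - m)) x k = traj σ u x k := by
      intro k hk
      unfold traj
      rw [List.drop_drop, List.length_drop]
      congr 2
      congr 1
      omega
    rw [htr i hi, htr j hj] at h1
    exact hu2 i j (by omega) (by omega) h1
  have h1 := (Set.encard_le_encard hsub).trans (Set.encard_image_le _ _)
  rw [← hfin.cast_ncard_eq] at h1
  exact absurd hx (not_lt.2 h1)

/-- windows of every radius -/
theorem exists_win [Finite ι] (hinv : ∀ s, ∃ t, σ t = (σ s)⁻¹)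
    (hdeg : ∀ x a b c : X, a ≠ x → b ≠ x → c ≠ x → (∃ s, σ s x = a) → (∃ s, σ s x = b) →
      (∃ s, σ s x = c) → a = b ∨ a = c ∨ b = c)
    (hunb : ∀ N : ℕ, ∃ x : X, (N : ℕ∞) < {y | ∃ w : List ι, wd σ w x = y}.encard) (K : ℕ) :
    ∃ (p : ℤ → X) (δ : ι → ℤ → ℤ), Win σ p δ K := by
  classical
  obtain ⟨x, u, hu, hinj⟩ := exists_long σ hunb (2 * K)
  let p : ℤ → X := fun i => traj σ u x (i + K).toNat
  have hp : ∀ i, p i = traj σ u x (i + K).toNat := fun i => rfl
  let δ : ι → ℤ → ℤ := fun s i => if σ s (p i) = p (i + 1) then 1 else if σ s (p i) = p i then 0 else -1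
  have hinj' : ∀ i j : ℤ, |i| ≤ (K : ℤ) → |j| ≤ (K : ℤ) → p i = p j → i = j := by
    intro i j hi hj hij
    have h1 := abs_le.1 hi
    have h2 := abs_le.1 hj
    have h3 := hinj (i + K).toNat (j + K).toNat (by omega) (by omega) hij
    omega
  have hnext : ∀ i : ℤ, |i| < (K : ℤ) → ∃ s, σ s (p i) = p (i + 1) := by
    intro i hi
    have h1 := abs_lt.1 hi
    obtain ⟨s, hs⟩ := traj_succ σ u x (j := (i + K).toNat) (by omega)
    refine ⟨s, ?_⟩
    rw [hp, hp, ← hs]
    congr 1
    omega
  have hprev : ∀ i : ℤ, |i| < (K : ℤ) → ∃ s, σ s (p i) = p (i - 1) := by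
    intro i hi
    have h1 := abs_lt.1 hi
    obtain ⟨s, hs⟩ := traj_succ σ u x (j := (i - 1 + K).toNat) (by omega)
    obtain ⟨t, ht⟩ := hinv s
    refine ⟨t, ?_⟩
    have e : (i - 1 + K).toNat + 1 = (i + K).toNat := by omega
    rw [e] at hs
    rw [hp, hp, hs, ht]
    exact (σ s).symm_apply_apply _
  refine ⟨p, δ, hinj', fun s i hi => ?_, fun i hi => ?_⟩
  · simp only [δ]
    split_ifs with h1 h2
    · exact ⟨by norm_num, h1⟩
    · exact ⟨by norm_num, by rw [add_zero]; exact h2⟩
    · refine ⟨by norm_num, ?_⟩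
      have hi' := abs_lt.1 hi
      have hne1 : p (i + 1) ≠ p i := fun h => by
        have := hinj' (i + 1) i (by rw [abs_le]; omega) hi.le h
        omega
      have hne2 : p (i - 1) ≠ p i := fun h => by
        have := hinj' (i - 1) i (by rw [abs_le]; omega) hi.le h
        omega
      have hne3 : p (i + 1) ≠ p (i - 1) := fun h => by
        have := hinj' (i + 1) (i - 1) (by rw [abs_le]; omega) (by rw [abs_le]; omega) h
        omega
      rcases hdeg (p i) (σ s (p i)) (p (i + 1)) (p (i - 1)) h2 hne1 hne2 ⟨s, rfl⟩ (hnext i hi)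
        (hprev i hi) with h3 | h3 | h3
      · exact absurd h3 h1
      · exact h3
      · exact absurd h3 hne3
  · obtain ⟨s, hs⟩ := hnext i hi
    exact ⟨s, by simp only [δ]; rw [if_pos hs]⟩

end Pool.Agent.SCH
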