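/-
Groups of bounded exponent generated by permutations with Schreier graphs of degree at most two.
-/
import Pool.Agent.Lib.SCH.NoLine
import Pool.Agent.Lib.SCH.Wins
import Pool.Agent.Lib.FRG.Init

set_option autoImplicit false

namespace Pool.Agent.SCH

variable {X : Type*}

/-- the letters `f`, `f⁻¹` for `f` in the finite set `F` -/
def let2 (F : Finset (Equiv.Perm X)) (s : {f // f ∈ F} × Bool) : Equiv.Perm X :=
  if s.2 then s.1.1 else (s.1.1)⁻¹

theorem let2_mem (F : Finset (Equiv.Perm X)) (s : {f // f ∈ F} × Bool) :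
    let2 F s ∈ Subgroup.closure (F : Set (Equiv.Perm X)) := by
  unfold let2
  split_ifs
  · exact Subgroup.subset_closure s.1.2
  · exact Subgroup.inv_mem _ (Subgroup.subset_closure s.1.2)

theorem let2_inv (F : Finset (Equiv.Perm X)) (s : {f // f ∈ F} × Bool) :
    ∃ t, let2 F t = (let2 F s)⁻¹ := by
  refine ⟨(s.1, !s.2), ?_⟩
  unfold let2
  cases s.2 <;> simp

theorem wd_let2_mem (F : Finset (Equiv.Perm X)) (w : List ({f // f ∈ F} × Bool)) :
    wd (let2 F) w ∈ Subgroup.closure (F : Set (Equiv.Perm X)) := by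
  induction w with
  | nil => rw [wd_nil]; exact Subgroup.one_mem _
  | cons s w ih => rw [wd_cons]; exact Subgroup.mul_mem _ (let2_mem F s) ih

theorem exists_wd_let2 (F : Finset (Equiv.Perm X)) (g : Equiv.Perm X)
    (hg : g ∈ Subgroup.closure (F : Set (Equiv.Perm X))) : ∃ w, wd (let2 F) w = g := by
  induction hg using Subgroup.closure_induction with
  | mem x hx => exact ⟨[(⟨x, hx⟩, true)], by rw [wd_singleton]; simp [let2]⟩
  | one => exact ⟨[], wd_nil _⟩
  | mul x y _ _ ihx ihy =>
    obtain ⟨v, rfl⟩ := ihx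
    obtain ⟨w, rfl⟩ := ihy
    exact ⟨v ++ w, wd_append _ v w⟩
  | inv x _ ih =>
    obtain ⟨w, rfl⟩ := ih
    have key : ∀ w : List ({f // f ∈ F} × Bool), ∃ u, wd (let2 F) u = (wd (let2 F) w)⁻¹ := by
      intro w
      induction w with
      | nil => exact ⟨[], by simp [wd_nil]⟩
      | cons s w ih =>
        obtain ⟨u, hu⟩ := ih
        obtain ⟨t, ht⟩ := let2_inv F s
        exact ⟨u ++ [t], by rw [wd_append, wd_singleton, hu, ht, wd_cons, mul_inv_rev]⟩
    exact key w

/-- the case of finitely many generators -/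
theorem finite_closure (F : Finset (Equiv.Perm X))
    (hF : ∀ x : X, {y | y ≠ x ∧ ∃ s ∈ F, s x = y ∨ s y = x}.encard ≤ 2) {n : ℕ} (hn : 0 < n)
    (hexp : ∀ g ∈ Subgroup.closure (F : Set (Equiv.Perm X)), g ^ n = 1) :
    Finite (Subgroup.closure (F : Set (Equiv.Perm X))) := by
  classical
  by_contra hinf
  have hunb : ∀ N : ℕ, ∃ x : X, (N : ℕ∞) < {y | ∃ w, wd (let2 F) w x = y}.encard := by
    intro N
    by_contra hcon
    push Not at hcon
    apply hinf
    refine FRG.finite_of_bounded (X := X) (Subgroup.closure (F : Set (Equiv.Perm X)))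
      ((Group.fg_iff_subgroup_fg _).2 ⟨F, rfl⟩) (N := N) fun x => ?_
    refine (Set.encard_le_encard ?_).trans (hcon x)
    rintro _ ⟨g, rfl⟩
    obtain ⟨w, hw⟩ := exists_wd_let2 F g.1 g.2
    exact ⟨w, by rw [hw]; rfl⟩
  have hdeg : ∀ x a b c : X, a ≠ x → b ≠ x → c ≠ x → (∃ s, let2 F s x = a) →
      (∃ s, let2 F s x = b) → (∃ s, let2 F s x = c) → a = b ∨ a = c ∨ b = c := by
    intro x a b c ha hb hc hsa hsb hsc
    have hmem : ∀ y, y ≠ x → (∃ s, let2 F s x = y) →
        y ∈ {y | y ≠ x ∧ ∃ s ∈ F, s x = y ∨ s y = x} := by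
      rintro y hy ⟨⟨s, b⟩, hs⟩
      refine ⟨hy, s.1, s.2, ?_⟩
      unfold let2 at hs
      cases b
      · right
        simp only [Bool.false_eq_true, if_false] at hs
        rw [← hs]
        exact s.1.apply_symm_apply x
      · left
        simpa using hs
    by_contra hcon
    push Not at hcon
    obtain ⟨h1, h2, h3⟩ := hcon
    have hsub : ({a, b, c} : Set X) ⊆ {y | y ≠ x ∧ ∃ s ∈ F, s x = y ∨ s y = x} := by
      rintro y hy
      rcases hy with rfl | rfl | rfl
      · exact hmem _ ha hsa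
      · exact hmem _ hb hsb
      · exact hmem _ hc hsc
    have h4 : ({a, b, c} : Set X).encard = 3 := by
      rw [Set.encard_insert_of_notMem (by simp [h1, h2]), Set.encard_pair h3]
      norm_num
    have h5 := (Set.encard_le_encard hsub).trans (hF x)
    rw [h4] at h5
    exact absurd h5 (by norm_num)
  have hW := exists_win (let2 F) (let2_inv F) hdeg hunb
  choose p δ hpd using hW
  obtain ⟨τ, hτ, _⟩ := limit (let2 F) hn (fun w => hexp _ (wd_let2_mem F w)) p δ hpd
  exact no_line hn ⟨τ, hτ⟩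

/-- every element of a closure is in the closure of a finite subset -/
theorem exists_finset_closure {G : Type*} [Group G] (S : Set G) (g : G) (hg : g ∈ Subgroup.closure S) :
    ∃ F : Finset G, (F : Set G) ⊆ S ∧ g ∈ Subgroup.closure (F : Set G) := by
  classical
  induction hg using Subgroup.closure_induction with
  | mem x hx =>
    exact ⟨{x}, by simpa using hx, Subgroup.subset_closure (by simp)⟩
  | one => exact ⟨∅, by simp, Subgroup.one_mem _⟩
  | mul x y _ _ ihx ihy =>
    obtain ⟨F, hF1, hF2⟩ := ihx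
    obtain ⟨F', hF1', hF2'⟩ := ihy
    refine ⟨F ∪ F', by simp [hF1, hF1'], Subgroup.mul_mem _ ?_ ?_⟩
    · exact Subgroup.closure_mono (by simp) hF2
    · exact Subgroup.closure_mono (by simp) hF2'
  | inv x _ ih =>
    obtain ⟨F, hF1, hF2⟩ := ih
    exact ⟨F, hF1, Subgroup.inv_mem _ hF2⟩

/-- **Main theorem.** -/
theorem main (S : Set (Equiv.Perm X))
    (hS : ∀ x : X, {y | y ≠ x ∧ ∃ s ∈ S, s x = y ∨ s y = x}.encard ≤ 2) {n : ℕ} (hn : 0 < n)
    (hexp : ∀ g ∈ Subgroup.closure S, g ^ n = 1) (H : Subgroup (Equiv.Perm X))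
    (hH : H ≤ Subgroup.closure S) (hfg : H.FG) : Finite H := by
  classical
  obtain ⟨T, rfl⟩ := hfg
  have hT : ∀ t ∈ T, ∃ F : Finset (Equiv.Perm X), (F : Set (Equiv.Perm X)) ⊆ S ∧
      t ∈ Subgroup.closure (F : Set (Equiv.Perm X)) := fun t ht =>
    exists_finset_closure S t (hH (Subgroup.subset_closure ht))
  choose! Fs hFs1 hFs2 using hT
  set F : Finset (Equiv.Perm X) := T.biUnion Fs with hFdef
  have hFS : (F : Set (Equiv.Perm X)) ⊆ S := by
    intro f hf
    obtain ⟨t, ht, hft⟩ := Finset.mem_biUnion.1 (Finset.mem_coe.1 hf)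
    exact hFs1 t ht hft
  have hle : Subgroup.closure (T : Set (Equiv.Perm X)) ≤ Subgroup.closure (F : Set (Equiv.Perm X)) := by
    refine (Subgroup.closure_le _).2 fun t ht => ?_
    refine Subgroup.closure_mono ?_ (hFs2 t ht)
    exact_mod_cast Finset.subset_biUnion_of_mem Fs (Finset.mem_coe.1 ht)
  have hfin : Finite (Subgroup.closure (F : Set (Equiv.Perm X))) := by
    refine finite_closure F (fun x => ?_) hn fun g hg => hexp g (Subgroup.closure_mono hFS hg)
    refine (Set.encard_le_encard ?_).trans (hS x)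
    rintro y ⟨hy, s, hs, hsy⟩
    exact ⟨hy, s, hFS hs, hsy⟩
  exact Finite.of_injective (Subgroup.inclusion hle) (Subgroup.inclusion_injective hle)

end Pool.Agent.SCH
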