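/-
SCH, row SEP: finitely many points separate the combinations of independent functions.
-/
import Pool.Agent.Lib.SCH.FIN

set_option autoImplicit false

namespace Pool.Agent.SCH

theorem exists_sep {α : Type*} {D : ℕ} (f : Fin D → α → ℝ) (hf : LinearIndependent ℝ f) :
    ∃ P : Finset α, ∀ c : Fin D → ℝ, (∀ x ∈ P, ∑ j, c j * f j x = 0) → c = 0 := by
  have : FiniteDimensional ℝ (Submodule.span ℝ (Set.range f)) :=
    FiniteDimensional.span_of_finite ℝ (Set.finite_range f)
  obtain ⟨P, hP⟩ := exists_eval_inj (Submodule.span ℝ (Set.range f))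
  refine ⟨P, fun c hc => ?_⟩
  have h1 : ∑ j, c j • f j ∈ Submodule.span ℝ (Set.range f) :=
    Submodule.sum_mem _ fun j _ => Submodule.smul_mem _ _ (Submodule.subset_span ⟨j, rfl⟩)
  have h2 : ∑ j, c j • f j = 0 := by
    refine hP _ h1 fun g hg => ?_
    rw [Finset.sum_apply]
    exact hc g hg
  funext j
  exact Fintype.linearIndependent_iff.1 hf c h2 j

end Pool.Agent.SCH
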