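/-
Comparison of determinants of two quadratic forms (row DET, helper98).
-/
import Pool.Agent.Lib.SCH.Defs

set_option autoImplicit false

open Matrix Unitary
open scoped MatrixOrder

namespace Pool.Agent.SCH

/-- simultaneous diagonalisation of a symmetric and a positive definite matrix -/
theorem sim_diag {D : ℕ} (A B : Matrix (Fin D) (Fin D) ℝ) (hA : A.IsHermitian) (hB : B.PosDef) :
    ∃ (M : Matrix (Fin D) (Fin D) ℝ) (d : Fin D → ℝ),
      Mᴴ * A * M = diagonal d ∧ Mᴴ * B * M = 1 := by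
  obtain ⟨Q, hQ⟩ : ∃ Q : Matrix (Fin D) (Fin D) ℝ, B = Qᴴ * Q := by
    obtain ⟨Q, hQ⟩ := CStarAlgebra.nonneg_iff_eq_star_mul_self.mp hB.posSemidef.nonneg
    exact ⟨Q, hQ⟩
  have hdet : IsUnit Q.det := by
    have h1 := hB.det_pos
    rw [hQ, det_mul] at h1
    rw [isUnit_iff_ne_zero]
    intro h
    rw [h, mul_zero] at h1
    exact lt_irrefl _ h1
  have hQP : Q * Q⁻¹ = 1 := mul_nonsing_inv Q hdet
  have hA' : ((Q⁻¹)ᴴ * A * Q⁻¹).IsHermitian := isHermitian_conjTranspose_mul_mul _ hA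
  refine ⟨Q⁻¹ * (hA'.eigenvectorUnitary : Matrix (Fin D) (Fin D) ℝ), hA'.eigenvalues, ?_, ?_⟩
  · have h1 := hA'.conjStarAlgAut_star_eigenvectorUnitary
    rw [conjStarAlgAut_star_apply] at h1
    rw [conjTranspose_mul]
    calc _ = star (hA'.eigenvectorUnitary : Matrix (Fin D) (Fin D) ℝ) *
          ((Q⁻¹)ᴴ * A * Q⁻¹) * (hA'.eigenvectorUnitary : Matrix (Fin D) (Fin D) ℝ) := by
          rw [star_eq_conjTranspose]
          simp only [Matrix.mul_assoc]
      _ = _ := h1
      _ = _ := rfl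
  · have h2 : (Q⁻¹)ᴴ * B * Q⁻¹ = 1 := by
      have h3 : (Q⁻¹)ᴴ * Qᴴ = 1 := by
        rw [← conjTranspose_mul, hQP, conjTranspose_one]
      calc (Q⁻¹)ᴴ * B * Q⁻¹ = ((Q⁻¹)ᴴ * Qᴴ) * (Q * Q⁻¹) := by
            rw [hQ]
            simp only [Matrix.mul_assoc]
        _ = 1 := by rw [h3, hQP, Matrix.one_mul]
    rw [conjTranspose_mul]
    calc _ = (hA'.eigenvectorUnitary : Matrix (Fin D) (Fin D) ℝ)ᴴ *
          ((Q⁻¹)ᴴ * B * Q⁻¹) * (hA'.eigenvectorUnitary : Matrix (Fin D) (Fin D) ℝ) := by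
          simp only [Matrix.mul_assoc]
      _ = 1 := by
          rw [h2, Matrix.mul_one, ← star_eq_conjTranspose]
          exact Unitary.coe_star_mul_self _

theorem det_cmp {D J : ℕ} (A B : Matrix (Fin D) (Fin D) ℝ) (hA : A.PosSemidef) (hB : B.PosDef)
    (hAB : (B - A).PosSemidef) (θ : ℝ) (h0 : 0 < θ) (h1 : θ ≤ 1)
    (l : (Fin D → ℝ) →ₗ[ℝ] (Fin J → ℝ))
    (hl : ∀ c : Fin D → ℝ, l c = 0 → c ⬝ᵥ A.mulVec c ≤ θ * (c ⬝ᵥ B.mulVec c)) (hJ : J ≤ D) :
    A.det ≤ θ ^ (D - J) * B.det := by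
  obtain ⟨M, d, hMA, hMB⟩ := sim_diag A B hA.isHermitian hB
  have hd0 : ∀ i, 0 ≤ d i := by
    intro i
    have h2 : (diagonal d).PosSemidef := by
      rw [← hMA]
      exact hA.conjTranspose_mul_mul_same M
    exact (posSemidef_diagonal_iff.1 h2) i
  have hd1 : ∀ i, d i ≤ 1 := by
    intro i
    have h2 : (diagonal (fun i => 1 - d i)).PosSemidef := by
      have h3 : Mᴴ * (B - A) * M = diagonal (fun i => 1 - d i) := by
        rw [Matrix.mul_sub, Matrix.sub_mul, hMA, hMB, ← diagonal_one, diagonal_sub]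
      rw [← h3]
      exact hAB.conjTranspose_mul_mul_same M
    have := (posSemidef_diagonal_iff.1 h2) i
    linarith
  have hquad : ∀ (N : Matrix (Fin D) (Fin D) ℝ) (y : Fin D → ℝ),
      (M *ᵥ y) ⬝ᵥ N.mulVec (M *ᵥ y) = y ⬝ᵥ (Mᴴ * N * M).mulVec y := by
    intro N y
    rw [conjTranspose_eq_transpose_of_trivial, ← mulVec_mulVec, ← mulVec_mulVec,
      dotProduct_mulVec y, vecMul_transpose]
  have hdiag : ∀ y : Fin D → ℝ, y ⬝ᵥ (diagonal d).mulVec y = ∑ i, d i * y i ^ 2 := by
    intro y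
    rw [dotProduct]
    refine Finset.sum_congr rfl fun i _ => ?_
    rw [mulVec_diagonal]
    ring
  -- the number of large eigenvalues
  set I : Finset (Fin D) := Finset.univ.filter fun i => θ < d i with hI
  have hIJ : I.card ≤ J := by
    by_contra hcon
    push Not at hcon
    let L : (Fin D → ℝ) →ₗ[ℝ] (Fin J → ℝ) × ({i // i ∉ I} → ℝ) :=
      (l ∘ₗ M.mulVecLin).prod (LinearMap.funLeft ℝ ℝ Subtype.val)
    have hrank : Module.finrank ℝ ((Fin J → ℝ) × ({i // i ∉ I} → ℝ)) <
        Module.finrank ℝ (Fin D → ℝ) := by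
      have h3 := Fintype.card_subtype_compl (fun i => i ∈ I)
      rw [Module.finrank_prod, Module.finrank_fin_fun, Module.finrank_fin_fun,
        Module.finrank_fintype_fun_eq_card, h3, Fintype.card_fin, Fintype.card_coe]
      have h4 : I.card ≤ D := by
        have := Finset.card_le_univ I
        rwa [Fintype.card_fin] at this
      omega
    obtain ⟨y, hy, hy0⟩ := Submodule.exists_mem_ne_zero_of_ne_bot
      (LinearMap.ker_ne_bot_of_finrank_lt (f := L) hrank)
    rw [LinearMap.mem_ker] at hy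
    have hy1 : l (M *ᵥ y) = 0 := congrArg Prod.fst hy
    have hy2 : ∀ i, i ∉ I → y i = 0 := by
      intro i hi
      exact congrFun (congrArg Prod.snd hy) ⟨i, hi⟩
    have h3 := hl _ hy1
    rw [hquad, hquad, hMA, hMB, hdiag, one_mulVec] at h3
    have h4 : θ * (y ⬝ᵥ y) = ∑ i, θ * y i ^ 2 := by
      rw [dotProduct, Finset.mul_sum]
      refine Finset.sum_congr rfl fun i _ => ?_
      ring
    rw [h4] at h3
    have h5 : ∑ i, θ * y i ^ 2 < ∑ i, d i * y i ^ 2 := by
      obtain ⟨j, hj⟩ : ∃ j, y j ≠ 0 := by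
        by_contra h
        push Not at h
        exact hy0 (funext h)
      refine Finset.sum_lt_sum ?_ ⟨j, Finset.mem_univ _, ?_⟩
      · intro i _
        by_cases hi : i ∈ I
        · have h6 : θ < d i := (Finset.mem_filter.1 hi).2
          exact mul_le_mul_of_nonneg_right h6.le (sq_nonneg _)
        · rw [hy2 i hi]
          simp
      · have hjI : j ∈ I := by
          by_contra h
          exact hj (hy2 j h)
        have h6 : θ < d j := (Finset.mem_filter.1 hjI).2
        exact mul_lt_mul_of_pos_right h6 (by positivity)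
    exact absurd h3 (not_le.2 h5)
  -- the product of the eigenvalues
  have hprod : ∏ i, d i ≤ θ ^ (D - J) := by
    rw [← Finset.prod_mul_prod_compl I]
    have h2 : ∏ i ∈ I, d i ≤ 1 := Finset.prod_le_one (fun i _ => hd0 i) fun i _ => hd1 i
    have h3 : ∏ i ∈ Iᶜ, d i ≤ θ ^ (Iᶜ).card := by
      rw [← Finset.prod_const]
      refine Finset.prod_le_prod (fun i _ => hd0 i) ?_
      intro i hi
      have h4 : ¬ θ < d i := by
        intro h
        exact (Finset.mem_compl.1 hi) (Finset.mem_filter.2 ⟨Finset.mem_univ _, h⟩)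
      linarith
    have h4 : θ ^ (Iᶜ).card ≤ θ ^ (D - J) := by
      refine pow_le_pow_of_le_one h0.le h1 ?_
      rw [Finset.card_compl, Fintype.card_fin]
      omega
    calc (∏ i ∈ I, d i) * ∏ i ∈ Iᶜ, d i ≤ 1 * θ ^ (D - J) := by
          refine mul_le_mul h2 (h3.trans h4) ?_ zero_le_one
          exact Finset.prod_nonneg fun i _ => hd0 i
      _ = _ := one_mul _
  have hdA : M.det ^ 2 * A.det = ∏ i, d i := by
    have h2 := congrArg Matrix.det hMA
    rw [det_mul, det_mul, det_conjTranspose, det_diagonal] at h2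
    rw [← h2]
    simp only [star_trivial]
    ring
  have hdB : M.det ^ 2 * B.det = 1 := by
    have h2 := congrArg Matrix.det hMB
    rw [det_mul, det_mul, det_conjTranspose, det_one] at h2
    rw [← h2]
    simp only [star_trivial]
    ring
  have hBpos := hB.det_pos
  calc A.det = (M.det ^ 2 * B.det) * A.det := by rw [hdB, one_mul]
    _ = (M.det ^ 2 * A.det) * B.det := by ring
    _ = (∏ i, d i) * B.det := by rw [hdA]
    _ ≤ θ ^ (D - J) * B.det := mul_le_mul_of_nonneg_right hprod hBpos.le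

end Pool.Agent.SCH
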