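/-
Gram matrices of finitely many functions over finite sets of points (helper98).
-/
import Pool.Agent.Lib.SCH.SEP
import Pool.Agent.Lib.SCH.DET

set_option autoImplicit false

open Matrix Finset
open scoped Pointwise

namespace Pool.Agent.SCH

/-- the Gram matrix of `f` over the points of `P` -/
def gram {α : Type*} {D : ℕ} (P : Finset α) (f : Fin D → α → ℝ) : Matrix (Fin D) (Fin D) ℝ :=
  Matrix.of fun i j => ∑ x ∈ P, f i x * f j x

theorem gram_quad {α : Type*} {D : ℕ} (P : Finset α) (f : Fin D → α → ℝ) (c : Fin D → ℝ) :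
    c ⬝ᵥ (gram P f).mulVec c = ∑ x ∈ P, (∑ j, c j * f j x) ^ 2 := by
  have h1 : ∀ x, (∑ j, c j * f j x) ^ 2 = ∑ i, ∑ j, c i * (f i x * f j x * c j) := by
    intro x
    rw [sq, sum_mul]
    refine sum_congr rfl fun i _ => ?_
    rw [mul_sum]
    exact sum_congr rfl fun j _ => by ring
  simp only [h1, dotProduct, mulVec, gram, Matrix.of_apply]
  rw [sum_comm]
  refine sum_congr rfl fun i _ => ?_
  rw [mul_sum, sum_comm]
  refine sum_congr rfl fun j _ => ?_
  rw [sum_mul, mul_sum]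

theorem gram_isHermitian {α : Type*} {D : ℕ} (P : Finset α) (f : Fin D → α → ℝ) :
    (gram P f).IsHermitian := by
  ext i j
  simp only [gram, conjTranspose_apply, Matrix.of_apply, star_trivial]
  exact sum_congr rfl fun x _ => mul_comm _ _

theorem gram_posSemidef {α : Type*} {D : ℕ} (P : Finset α) (f : Fin D → α → ℝ) :
    (gram P f).PosSemidef := by
  refine PosSemidef.of_dotProduct_mulVec_nonneg (gram_isHermitian P f) ?_
  intro c
  rw [star_trivial, gram_quad]
  exact sum_nonneg fun _ _ => sq_nonneg _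

theorem gram_sub {α : Type*} [DecidableEq α] {D : ℕ} {P Q : Finset α} (h : P ⊆ Q)
    (f : Fin D → α → ℝ) : gram Q f - gram P f = gram (Q \ P) f := by
  ext i j
  simp only [gram, Matrix.sub_apply, Matrix.of_apply]
  rw [← sum_sdiff h]
  ring

theorem gram_sub_posSemidef {α : Type*} [DecidableEq α] {D : ℕ} {P Q : Finset α} (h : P ⊆ Q)
    (f : Fin D → α → ℝ) : (gram Q f - gram P f).PosSemidef := by
  rw [gram_sub h]
  exact gram_posSemidef _ f

/-- the Gram matrix is positive definite as soon as the points separate -/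
theorem gram_posDef {α : Type*} {D : ℕ} (P : Finset α) (f : Fin D → α → ℝ)
    (h : ∀ c : Fin D → ℝ, (∀ x ∈ P, ∑ j, c j * f j x = 0) → c = 0) : (gram P f).PosDef := by
  refine PosDef.of_dotProduct_mulVec_pos (gram_isHermitian P f) ?_
  intro c hc
  rw [star_trivial, gram_quad]
  refine lt_of_le_of_ne (sum_nonneg fun _ _ => sq_nonneg _) ?_
  intro h0
  apply hc
  apply h
  intro x hx
  have h1 := (sum_eq_zero_iff_of_nonneg (fun _ _ => sq_nonneg _)).1 h0.symm x hx
  exact pow_eq_zero_iff (two_ne_zero) |>.1 h1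

theorem gram_det_mono {α : Type*} [DecidableEq α] {D : ℕ} {P Q : Finset α} (h : P ⊆ Q)
    (f : Fin D → α → ℝ) (hQ : (gram Q f).PosDef) : (gram P f).det ≤ (gram Q f).det := by
  have h1 := det_cmp (J := 0) (gram P f) (gram Q f) (gram_posSemidef P f) hQ
    (gram_sub_posSemidef h f) 1 one_pos le_rfl 0 (by
      intro c _
      rw [one_mul, gram_quad, gram_quad]
      exact sum_le_sum_of_subset_of_nonneg h fun _ _ _ => sq_nonneg _) (Nat.zero_le _)
  rwa [one_pow, one_mul] at h1

/-- comparison of the determinants on two sets of points: `J` linear conditions -/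
theorem gram_det_cmp {α : Type*} [DecidableEq α] {D J : ℕ} {P Q : Finset α} (h : P ⊆ Q)
    (f : Fin D → α → ℝ) (hQ : (gram Q f).PosDef) (θ : ℝ) (h0 : 0 < θ) (h1 : θ ≤ 1)
    (l : (Fin D → ℝ) →ₗ[ℝ] (Fin J → ℝ))
    (hl : ∀ c : Fin D → ℝ, l c = 0 →
      ∑ x ∈ P, (∑ j, c j * f j x) ^ 2 ≤ θ * ∑ x ∈ Q, (∑ j, c j * f j x) ^ 2) (hJ : J ≤ D) :
    (gram P f).det ≤ θ ^ (D - J) * (gram Q f).det := by
  refine det_cmp _ _ (gram_posSemidef P f) hQ (gram_sub_posSemidef h f) θ h0 h1 l ?_ hJ
  intro c hc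
  rw [gram_quad, gram_quad]
  exact hl c hc

theorem gram_det_le {α : Type*} {D : ℕ} (P : Finset α) (f : Fin D → α → ℝ) (K : ℝ)
    (hK : ∀ j, ∀ x ∈ P, |f j x| ≤ K) :
    (gram P f).det ≤ (D.factorial : ℝ) * ((P.card : ℝ) * K ^ 2) ^ D := by
  have h1 : ∀ i j, |gram P f i j| ≤ (P.card : ℝ) * K ^ 2 := by
    intro i j
    simp only [gram, Matrix.of_apply]
    calc |∑ x ∈ P, f i x * f j x| ≤ ∑ x ∈ P, |f i x * f j x| := abs_sum_le_sum_abs _ _
      _ ≤ ∑ _x ∈ P, K ^ 2 := by
          refine sum_le_sum fun x hx => ?_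
          rw [abs_mul, sq]
          exact mul_le_mul (hK i x hx) (hK j x hx) (abs_nonneg _)
            ((abs_nonneg _).trans (hK i x hx))
      _ = _ := by rw [sum_const, nsmul_eq_mul]
  have h2 := Matrix.det_le (A := gram P f) (abv := AbsoluteValue.abs) (x := (P.card : ℝ) * K ^ 2)
    (by
      intro i j
      exact h1 i j)
  rw [Fintype.card_fin, nsmul_eq_mul] at h2
  exact (le_abs_self _).trans h2

/-- the powers of a generating set with `1` are eventually large enough -/
theorem exists_posDef {G : Type*} [Group G] [DecidableEq G] (S : Finset G) (h1 : (1 : G) ∈ S)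
    (hgen : ∀ g : G, ∃ m : ℕ, g ∈ S ^ m) {D : ℕ} (f : Fin D → G → ℝ)
    (hf : LinearIndependent ℝ f) :
    ∃ m₀ : ℕ, ∀ m, m₀ ≤ m → (gram (S ^ m) f).PosDef := by
  obtain ⟨P, hP⟩ := exists_sep f hf
  choose m hm using hgen
  refine ⟨P.sup m, ?_⟩
  intro n hn
  refine gram_posDef _ f ?_
  intro c hc
  refine hP c fun x hx => hc x ?_
  have h2 : m x ≤ n := (le_sup (f := m) hx).trans hn
  exact pow_subset_pow_right h1 h2 (hm x)

end Pool.Agent.SCH
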