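import Pool.Agent.Lib.SCH.Defs
import Pool.Agent.Lib.SCH.DET
import Pool.Agent.Lib.SCH.SEP

/-!
# SCH (MP_1f3970_al), row KLEIN: Kleiner's theorem  (helper70)
-/

set_option autoImplicit false

open Matrix Finset
open scoped Pointwise

namespace Pool.Agent.SCH

namespace KLx

variable {α : Type*} {D : ℕ}

/-- The Gram matrix on a finite set. -/
noncomputable def gram (f : Fin D → α → ℝ) (B : Finset α) : Matrix (Fin D) (Fin D) ℝ :=
  Matrix.of fun i j => ∑ x ∈ B, f i x * f j x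

theorem gram_quad (f : Fin D → α → ℝ) (B : Finset α) (c : Fin D → ℝ) :
    c ⬝ᵥ (gram f B).mulVec c = ∑ x ∈ B, (∑ j, c j * f j x) ^ 2 := by
  have h1 : ∀ x, (∑ j, c j * f j x) ^ 2 = ∑ i, ∑ j, c i * (f i x * f j x * c j) := by
    intro x
    rw [sq, sum_mul_sum]
    apply sum_congr rfl
    intro i _
    apply sum_congr rfl
    intro j _
    ring
  rw [sum_congr rfl fun x _ => h1 x, sum_comm]
  simp only [dotProduct, mulVec, gram, of_apply]
  apply sum_congr rfl
  intro i _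
  rw [mul_sum, sum_comm]
  apply sum_congr rfl
  intro j _
  rw [sum_mul, mul_sum]

theorem gram_herm (f : Fin D → α → ℝ) (B : Finset α) : (gram f B).IsHermitian := by
  ext i j
  simp only [conjTranspose_apply, gram, of_apply, star_trivial]
  apply sum_congr rfl
  intro x _
  ring

theorem gram_psd (f : Fin D → α → ℝ) (B : Finset α) : (gram f B).PosSemidef := by
  apply PosSemidef.of_dotProduct_mulVec_nonneg (gram_herm f B)
  intro c
  rw [star_trivial, gram_quad]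
  exact sum_nonneg fun _ _ => sq_nonneg _

theorem gram_sub (f : Fin D → α → ℝ) {B B' : Finset α} (h : B ⊆ B') :
    (gram f B' - gram f B).PosSemidef := by
  apply PosSemidef.of_dotProduct_mulVec_nonneg ((gram_herm f B').sub (gram_herm f B))
  intro c
  rw [star_trivial, sub_mulVec, dotProduct_sub, gram_quad, gram_quad, sub_nonneg]
  exact sum_le_sum_of_subset_of_nonneg h fun _ _ _ => sq_nonneg _

theorem gram_pd (f : Fin D → α → ℝ) {B : Finset α}
    (h : ∀ c : Fin D → ℝ, (∀ x ∈ B, ∑ j, c j * f j x = 0) → c = 0) : (gram f B).PosDef := by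
  apply PosDef.of_dotProduct_mulVec_pos (gram_herm f B)
  intro c hc
  rw [star_trivial, gram_quad]
  apply lt_of_le_of_ne (sum_nonneg fun _ _ => sq_nonneg _)
  intro h0
  apply hc
  apply h
  intro x hx
  have h2 := (sum_eq_zero_iff_of_nonneg (fun (x : α) _ => sq_nonneg (∑ j, c j * f j x))).mp
    h0.symm x hx
  exact pow_eq_zero_iff (two_ne_zero) |>.mp h2

theorem gram_det_le (f : Fin D → α → ℝ) (B : Finset α) (E : ℝ) (hE : ∀ j, ∀ x ∈ B, |f j x| ≤ E) :
    (gram f B).det ≤ (D.factorial : ℝ) * ((B.card : ℝ) * E ^ 2) ^ D := by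
  have h1 := det_le (A := gram f B) (abv := IsAbsoluteValue.toAbsoluteValue (abs : ℝ → ℝ))
    (x := (B.card : ℝ) * E ^ 2) (by
      intro i j
      show |gram f B i j| ≤ _
      simp only [gram, of_apply]
      refine (abs_sum_le_sum_abs _ _).trans ?_
      refine (sum_le_sum fun x hx => ?_ : _ ≤ ∑ _x ∈ B, E ^ 2).trans ?_
      · rw [abs_mul, sq]
        exact mul_le_mul (hE i x hx) (hE j x hx) (abs_nonneg _) ((abs_nonneg _).trans (hE i x hx))
      · rw [sum_const, nsmul_eq_mul])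
  rw [Fintype.card_fin, nsmul_eq_mul] at h1
  exact (le_abs_self _).trans h1

/-- The determinants are monotone. -/
theorem gram_det_mono (f : Fin D → α → ℝ) {B B' : Finset α} (h : B ⊆ B')
    (hp : (gram f B').PosDef) : (gram f B).det ≤ (gram f B').det := by
  have h1 := det_cmp (J := 0) (gram f B) (gram f B') (gram_psd f B) hp (gram_sub f h) 1 one_pos
    le_rfl 0 (by
      intro c _
      have h2 := (gram_sub f h).dotProduct_mulVec_nonneg c
      rw [star_trivial, sub_mulVec, dotProduct_sub] at h2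
      linarith) (Nat.zero_le _)
  simpa using h1

end KLx

open KLx

/-- Kleiner's theorem from the rows DECAY and SEL. -/
theorem klein_of {G : Type*} [Group G] [DecidableEq G] (S : Finset G) (h1 : (1 : G) ∈ S)
    (hdec : ∀ ρ R : ℕ, 1 ≤ ρ → 6 * ρ ≤ R →
      ∃ Z : Finset G, Z.card * (S ^ ρ).card ≤ (S ^ (2 * R)).card ∧
      ∀ f : G → ℝ, Harm S f → (∀ z ∈ Z, ∑ x ∈ S ^ (2 * ρ), f (x * z) = 0) →
        (R : ℝ) ^ 2 * ((S ^ ρ).card : ℝ) ^ 2 * ∑ x ∈ S ^ R, f x ^ 2 ≤
          8 * (ρ : ℝ) ^ 2 * (S.card : ℝ) * ((S ^ (8 * ρ)).card : ℝ) ^ 2 *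
            ∑ x ∈ S ^ (4 * R), f x ^ 2)
    (hsel : ∀ (t : ℕ → ℝ) (i₀ : ℕ), (∀ i, i₀ ≤ i → 0 ≤ t i) → ∀ c a A : ℝ,
      (∀ N : ℕ, ∑ i ∈ Finset.range N, t (i₀ + i) ≤ c + a * N) → 3 * a < A → ∀ k : ℕ,
      ∃ i, i₀ ≤ i ∧ t i ≤ A ∧ t (i + k) ≤ A ∧
        ∑ j ∈ Finset.range (k + 1), t (i + j) ≤ A * (k + 1))
    (hgen : ∀ g : G, ∃ m : ℕ, g ∈ S ^ m) (C : ℝ) (d : ℕ)
    (hgr : ∀ m : ℕ, ((S ^ m).card : ℝ) ≤ C * ((m : ℝ) + 1) ^ d) :
    ∃ D₀ : ℕ, ∀ (D : ℕ) (f : Fin D → G → ℝ), LinearIndependent ℝ f → (∀ j, Harm S (f j)) →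
      (∀ j, ∃ K : ℝ, ∀ m : ℕ, ∀ x ∈ S ^ m, |f j x| ≤ K * ((m : ℝ) + 1)) → D ≤ D₀ := by
  classical
  have hsub : ∀ m m' : ℕ, m ≤ m' → S ^ m ⊆ S ^ m' := fun m m' h => pow_subset_pow_right h1 h
  have hb1 : ∀ m : ℕ, (1 : ℝ) ≤ ((S ^ m).card : ℝ) := by
    intro m
    have h2 : 0 < (S ^ m).card := card_pos.mpr ⟨1, one_mem_pow h1⟩
    exact_mod_cast h2
  have hC1 : 1 ≤ C := by
    have h2 := hgr 0
    have h3 := hb1 0
    simp only [Nat.cast_zero, zero_add, one_pow, mul_one] at h2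
    linarith
  set σ : ℝ := (S.card : ℝ) with hσ
  have hσ1 : 1 ≤ σ := by
    have h2 : 1 ≤ S.card := card_pos.mpr ⟨1, h1⟩
    rw [hσ]
    exact_mod_cast h2
  have hl8 : 0 < Real.log 8 := Real.log_pos (by norm_num)
  set a : ℝ := (2 * d + 2) * Real.log 8 with ha
  have ha0 : 0 ≤ a := by positivity
  set A : ℝ := 3 * a + 1 with hA
  have hA0 : 0 < A := by positivity
  -- the distance of the scales
  obtain ⟨k₁, hk₁⟩ := pow_unbounded_of_one_lt (8 * σ * Real.exp (6 * A)) (by norm_num : (1 : ℝ) < 64)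
  set k : ℕ := k₁ + 1 with hk
  have hk64 : 8 * σ * Real.exp (6 * A) ≤ 64 ^ k := by
    refine hk₁.le.trans ?_
    exact pow_le_pow_right₀ (by norm_num) (by omega)
  set J₀ : ℕ := ⌈Real.exp (A * (k + 1))⌉₊ with hJ₀
  have hJ₀1 : 1 ≤ J₀ := Nat.ceil_pos.mpr (Real.exp_pos _)
  refine ⟨2 * J₀, ?_⟩
  intro D f hf hharm hK
  by_contra hcon
  push Not at hcon
  have hD0 : 0 < D := by omega
  have hD0' : (0 : ℝ) < D := by exact_mod_cast hD0
  -- one constant for the growth of the functions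
  choose K hK using hK
  set K₀ : ℝ := 1 + ∑ j, |K j| with hK₀
  have hK₀1 : 1 ≤ K₀ := by
    have : 0 ≤ ∑ j, |K j| := sum_nonneg fun _ _ => abs_nonneg _
    linarith
  have hKf : ∀ j, ∀ m : ℕ, ∀ x ∈ S ^ m, |f j x| ≤ K₀ * ((m : ℝ) + 1) := by
    intro j m x hx
    refine (hK j m x hx).trans ?_
    apply mul_le_mul_of_nonneg_right _ (by positivity)
    have h2 : |K j| ≤ ∑ j, |K j| := single_le_sum (f := fun j => |K j|)
      (fun _ _ => abs_nonneg _) (mem_univ j)
    have h3 := le_abs_self (K j)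
    linarith
  -- the Gram matrices are positive definite from some radius on
  obtain ⟨P, hP⟩ := exists_sep f hf
  choose r hr using hgen
  set m₀ : ℕ := P.sup r with hm₀
  have hpd : ∀ m, m₀ ≤ m → (gram f (S ^ m)).PosDef := by
    intro m hm
    apply gram_pd
    intro c hc
    apply hP
    intro x hx
    apply hc
    exact hsub (r x) m ((le_sup hx).trans hm) (hr x)
  set v : ℕ → ℝ := fun i => Real.log ((S ^ (8 ^ i)).card : ℝ) with hv
  set h : ℕ → ℝ := fun i => Real.log (gram f (S ^ (8 ^ i))).det with hh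
  set t : ℕ → ℝ := fun i => (v (i + 1) - v i) + (h (i + 1) - h i) / D with ht
  have h8i : ∀ i : ℕ, i ≤ 8 ^ i := fun i => (Nat.lt_pow_self (by norm_num)).le
  have hpd8 : ∀ i, m₀ ≤ i → (gram f (S ^ (8 ^ i))).PosDef := fun i hi => hpd _ (hi.trans (h8i i))
  have hvmono : ∀ i j : ℕ, i ≤ j → v i ≤ v j := by
    intro i j hij
    apply Real.log_le_log (by have := hb1 (8 ^ i); linarith)
    exact_mod_cast card_le_card (hsub _ _ (Nat.pow_le_pow_right (by norm_num) hij))
  have hhmono : ∀ i j : ℕ, m₀ ≤ i → i ≤ j → h i ≤ h j := by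
    intro i j hi hij
    apply Real.log_le_log (hpd8 i hi).det_pos
    exact gram_det_mono f (hsub _ _ (Nat.pow_le_pow_right (by norm_num) hij))
      (hpd8 j (hi.trans hij))
  have ht0 : ∀ i, m₀ ≤ i → 0 ≤ t i := by
    intro i hi
    have h2 := hvmono i (i + 1) (by omega)
    have h3 := hhmono i (i + 1) hi (by omega)
    have h4 : 0 ≤ (h (i + 1) - h i) / D := div_nonneg (by linarith) hD0'.le
    show 0 ≤ (v (i + 1) - v i) + (h (i + 1) - h i) / D
    linarith
  -- upper bounds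
  have hpow : ∀ i : ℕ, ((8 ^ i : ℕ) : ℝ) + 1 ≤ 8 ^ (i + 1) := by
    intro i
    push_cast
    rw [pow_succ]
    have h2 : (1 : ℝ) ≤ 8 ^ i := one_le_pow₀ (by norm_num)
    linarith
  have hlogpow : ∀ (i n : ℕ), Real.log ((((8 ^ i : ℕ) : ℝ) + 1) ^ n) ≤
      n * ((i + 1) * Real.log 8) := by
    intro i n
    rw [Real.log_pow]
    apply mul_le_mul_of_nonneg_left _ (Nat.cast_nonneg n)
    refine (Real.log_le_log (by positivity) (hpow i)).trans ?_
    rw [Real.log_pow]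
    push_cast
    exact le_rfl
  have hvle : ∀ i, v i ≤ Real.log C + d * ((i + 1) * Real.log 8) := by
    intro i
    refine (Real.log_le_log (by have := hb1 (8 ^ i); linarith) (hgr (8 ^ i))).trans ?_
    rw [Real.log_mul (by linarith) (by positivity)]
    have := hlogpow i d
    linarith
  have hhle : ∀ i, m₀ ≤ i → h i ≤ Real.log (D.factorial : ℝ) + D * (Real.log (C * K₀ ^ 2) +
      (d + 2 : ℕ) * ((i + 1) * Real.log 8)) := by
    intro i hi
    have h2 := gram_det_le f (S ^ (8 ^ i)) (K₀ * (((8 ^ i : ℕ) : ℝ) + 1))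
      (fun j x hx => hKf j (8 ^ i) x hx)
    have h3 : ((S ^ (8 ^ i)).card : ℝ) * (K₀ * (((8 ^ i : ℕ) : ℝ) + 1)) ^ 2 ≤
        C * K₀ ^ 2 * (((8 ^ i : ℕ) : ℝ) + 1) ^ (d + 2) := by
      calc _ ≤ (C * (((8 ^ i : ℕ) : ℝ) + 1) ^ d) * (K₀ * (((8 ^ i : ℕ) : ℝ) + 1)) ^ 2 :=
            mul_le_mul_of_nonneg_right (hgr (8 ^ i)) (sq_nonneg _)
        _ = _ := by ring
    have h4 : (gram f (S ^ (8 ^ i))).det ≤ (D.factorial : ℝ) *
        (C * K₀ ^ 2 * (((8 ^ i : ℕ) : ℝ) + 1) ^ (d + 2)) ^ D := by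
      refine h2.trans ?_
      apply mul_le_mul_of_nonneg_left _ (Nat.cast_nonneg _)
      exact pow_le_pow_left₀ (by positivity) h3 D
    have hfac : (0 : ℝ) < (D.factorial : ℝ) := by exact_mod_cast D.factorial_pos
    have hCK : (0 : ℝ) < C * K₀ ^ 2 := by positivity
    have hq : (0 : ℝ) < (((8 ^ i : ℕ) : ℝ) + 1) ^ (d + 2) := by positivity
    refine (Real.log_le_log (hpd8 i hi).det_pos h4).trans ?_
    rw [Real.log_mul hfac.ne' (pow_pos (mul_pos hCK hq) D).ne', Real.log_pow,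
      Real.log_mul hCK.ne' hq.ne']
    have h5 := hlogpow i (d + 2)
    have h6 := mul_le_mul_of_nonneg_left h5 hD0'.le
    linarith
  -- the sum of the t
  have htel : ∀ N : ℕ, ∑ i ∈ Finset.range N, t (m₀ + i) =
      (v (m₀ + N) - v m₀) + (h (m₀ + N) - h m₀) / D := by
    intro N
    induction N with
    | zero => simp
    | succ N ih =>
      rw [sum_range_succ, ih]
      show _ + ((v (m₀ + N + 1) - v (m₀ + N)) + (h (m₀ + N + 1) - h (m₀ + N)) / D) = _
      rw [← add_assoc m₀ N 1]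
      ring
  set c₀ : ℝ := Real.log C + d * ((m₀ + 1) * Real.log 8) - v m₀ +
    (Real.log (D.factorial : ℝ) - h m₀) / D + Real.log (C * K₀ ^ 2) +
      (d + 2) * ((m₀ + 1) * Real.log 8) with hc₀
  have hsum : ∀ N : ℕ, ∑ i ∈ Finset.range N, t (m₀ + i) ≤ c₀ + a * N := by
    intro N
    rw [htel]
    have h2 := hvle (m₀ + N)
    have h3 := hhle (m₀ + N) (by omega)
    have h4 : (h (m₀ + N) - h m₀) / D ≤ (Real.log (D.factorial : ℝ) - h m₀) / D +
        (Real.log (C * K₀ ^ 2) + (d + 2 : ℕ) * (((m₀ + N : ℕ) + 1) * Real.log 8)) := by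
      have e : (Real.log (D.factorial : ℝ) - h m₀) / D +
        (Real.log (C * K₀ ^ 2) + (d + 2 : ℕ) * (((m₀ + N : ℕ) + 1) * Real.log 8)) =
          (Real.log (D.factorial : ℝ) + D * (Real.log (C * K₀ ^ 2) +
            (d + 2 : ℕ) * (((m₀ + N : ℕ) + 1) * Real.log 8)) - h m₀) / D := by
        field_simp
        ring
      rw [e]
      exact div_le_div_of_nonneg_right (by linarith) hD0'.le
    push_cast at h2 h4
    rw [hc₀, ha]
    nlinarith
  obtain ⟨i, hi, ht1, ht2, ht3⟩ := hsel t m₀ ht0 c₀ a A hsum (by rw [hA]; linarith) k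
  -- the two scales
  set ρ : ℕ := 8 ^ i with hρ
  set R : ℕ := 8 ^ (i + k) with hR
  have hρ1 : 1 ≤ ρ := Nat.one_le_pow _ _ (by norm_num)
  have hR8 : R = 8 ^ k * ρ := by
    rw [hR, hρ, pow_add]
    ring
  have h8k : 8 ≤ 8 ^ k := by
    calc 8 = 8 ^ 1 := (pow_one 8).symm
      _ ≤ 8 ^ k := Nat.pow_le_pow_right (by norm_num) (by omega)
  have h6 : 6 * ρ ≤ R := by
    rw [hR8]
    exact Nat.mul_le_mul_right ρ (by omega)
  obtain ⟨Z, hZ1, hZ2⟩ := hdec ρ R hρ1 h6
  have hb8ρ : 8 * ρ = 8 ^ (i + 1) := by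
    rw [hρ, pow_succ]
    ring
  have hb8R : 8 * R = 8 ^ (i + k + 1) := by
    rw [hR, pow_succ]
    ring
  -- differences of the volumes
  have hexpv : ∀ j : ℕ, Real.exp (v j) = ((S ^ (8 ^ j)).card : ℝ) := by
    intro j
    exact Real.exp_log (by have := hb1 (8 ^ j); linarith)
  have hv1 : v (i + 1) - v i ≤ A := by
    have h2 := hhmono i (i + 1) hi (by omega)
    have h3 : 0 ≤ (h (i + 1) - h i) / D := div_nonneg (by linarith) hD0'.le
    have h4 : (v (i + 1) - v i) + (h (i + 1) - h i) / D ≤ A := ht1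
    linarith
  have hh1 : h (i + k + 1) - h (i + k) ≤ A * D := by
    have h2 := hvmono (i + k) (i + k + 1) (by omega)
    have h4 : (v (i + k + 1) - v (i + k)) + (h (i + k + 1) - h (i + k)) / D ≤ A := ht2
    have h5 : (h (i + k + 1) - h (i + k)) / D ≤ A := by linarith
    rwa [div_le_iff₀ hD0'] at h5
  have hvk : v (i + k + 1) - v i ≤ A * (k + 1) := by
    have h2 : ∀ n : ℕ, v (i + n) - v i ≤ ∑ j ∈ Finset.range n, t (i + j) := by
      intro n
      induction n with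
      | zero => simp
      | succ n ih =>
        rw [sum_range_succ]
        have h3 := hhmono (i + n) (i + n + 1) (by omega) (by omega)
        have h4 : 0 ≤ (h (i + n + 1) - h (i + n)) / D := div_nonneg (by linarith) hD0'.le
        have h5 : t (i + n) = (v (i + n + 1) - v (i + n)) + (h (i + n + 1) - h (i + n)) / D := rfl
        have h6 : i + (n + 1) = i + n + 1 := by omega
        rw [h6]
        linarith
    exact (h2 (k + 1)).trans ht3
  have hZJ : Z.card ≤ J₀ := by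
    have h2 : (Z.card : ℝ) * ((S ^ ρ).card : ℝ) ≤ ((S ^ (2 * R)).card : ℝ) := by
      exact_mod_cast hZ1
    have h3 : ((S ^ (2 * R)).card : ℝ) ≤ ((S ^ (8 ^ (i + k + 1))).card : ℝ) := by
      exact_mod_cast card_le_card (hsub _ _ (by rw [← hb8R]; omega))
    have h4 : (Z.card : ℝ) ≤ Real.exp (A * (k + 1)) := by
      have h5 : (Z.card : ℝ) * Real.exp (v i) ≤ Real.exp (v (i + k + 1)) := by
        rw [hexpv, hexpv]
        exact h2.trans h3
      have h6 : (Z.card : ℝ) ≤ Real.exp (v (i + k + 1) - v i) := by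
        rw [Real.exp_sub, le_div_iff₀ (Real.exp_pos _)]
        exact h5
      exact h6.trans (Real.exp_le_exp.mpr hvk)
    have h5 : (Z.card : ℝ) ≤ (J₀ : ℝ) := h4.trans (Nat.le_ceil _)
    exact_mod_cast h5
  -- the comparison of the quadratic forms
  set θ : ℝ := Real.exp (-(4 * A)) with hθ
  let L : Matrix (Fin Z.card) (Fin D) ℝ := Matrix.of fun n j =>
    ∑ x ∈ S ^ (2 * ρ), f j (x * (Z.equivFin.symm n).1)
  have hRpos : (0 : ℝ) < R := by
    have : 0 < R := by omega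
    exact_mod_cast this
  have hρpos : (0 : ℝ) < ρ := by exact_mod_cast hρ1
  have hkey : ∀ c : Fin D → ℝ, L.mulVecLin c = 0 →
      c ⬝ᵥ (gram f (S ^ R)).mulVec c ≤ θ * (c ⬝ᵥ (gram f (S ^ (8 * R))).mulVec c) := by
    intro c hc
    rw [gram_quad, gram_quad]
    have hh2 : Harm S fun x => ∑ j, c j * f j x := by
      intro x
      have e : ∑ s ∈ S, ((∑ j, c j * f j (s * x)) - ∑ j, c j * f j x) =
          ∑ j, c j * ∑ s ∈ S, (f j (s * x) - f j x) := by
        rw [sum_congr rfl fun (s : G) _ => (sum_sub_distrib (s := (univ : Finset (Fin D)))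
          (fun j => c j * f j (s * x)) (fun j => c j * f j x)).symm, sum_comm]
        apply sum_congr rfl
        intro j _
        rw [mul_sum]
        apply sum_congr rfl
        intro s _
        ring
      rw [e]
      apply sum_eq_zero
      intro j _
      rw [hharm j x, mul_zero]
    have hh3 : ∀ z ∈ Z, ∑ x ∈ S ^ (2 * ρ), (∑ j, c j * f j (x * z)) = 0 := by
      intro z hz
      have h2 := congrFun hc (Z.equivFin ⟨z, hz⟩)
      rw [mulVecLin_apply, mulVec, dotProduct] at h2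
      rw [sum_comm]
      rw [Pi.zero_apply] at h2
      rw [← h2]
      apply sum_congr rfl
      intro j _
      show ∑ x ∈ S ^ (2 * ρ), c j * f j (x * z) =
        (∑ x ∈ S ^ (2 * ρ), f j (x * (Z.equivFin.symm (Z.equivFin ⟨z, hz⟩)).1)) * c j
      rw [Equiv.symm_apply_apply, sum_mul]
      apply sum_congr rfl
      intro x _
      ring
    have h3 := hZ2 _ hh2 hh3
    set QR : ℝ := ∑ x ∈ S ^ R, (∑ j, c j * f j x) ^ 2 with hQR
    set Q4 : ℝ := ∑ x ∈ S ^ (4 * R), (∑ j, c j * f j x) ^ 2 with hQ4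
    set Q8 : ℝ := ∑ x ∈ S ^ (8 * R), (∑ j, c j * f j x) ^ 2 with hQ8
    have hQ48 : Q4 ≤ Q8 :=
      sum_le_sum_of_subset_of_nonneg (hsub _ _ (by omega)) fun _ _ _ => sq_nonneg _
    have hQ40 : 0 ≤ Q4 := sum_nonneg fun _ _ => sq_nonneg _
    rw [hb8ρ, ← hexpv, ← hexpv] at h3
    have hRR : (R : ℝ) = 8 ^ k * ρ := by
      rw [hR8]
      push_cast
      ring
    have h4 : (64 : ℝ) ^ k * QR ≤ 8 * σ * Real.exp (2 * A) * Q4 := by
      have e1 : (R : ℝ) ^ 2 = 64 ^ k * (ρ : ℝ) ^ 2 := by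
        rw [hRR, mul_pow, ← pow_mul, mul_comm k 2, pow_mul]
        norm_num
      have e2 : Real.exp (v (i + 1)) ^ 2 ≤ Real.exp (2 * A) * Real.exp (v i) ^ 2 := by
        rw [← Real.exp_nat_mul, ← Real.exp_nat_mul, ← Real.exp_add]
        apply Real.exp_le_exp.mpr
        push_cast
        linarith
      have hpos : 0 < (ρ : ℝ) ^ 2 * Real.exp (v i) ^ 2 := by positivity
      have h5 : (ρ : ℝ) ^ 2 * Real.exp (v i) ^ 2 * (64 ^ k * QR) ≤
          (ρ : ℝ) ^ 2 * Real.exp (v i) ^ 2 * (8 * σ * Real.exp (2 * A) * Q4) := by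
        calc _ = (R : ℝ) ^ 2 * Real.exp (v i) ^ 2 * QR := by rw [e1]; ring
          _ ≤ 8 * (ρ : ℝ) ^ 2 * σ * Real.exp (v (i + 1)) ^ 2 * Q4 := h3
          _ ≤ 8 * (ρ : ℝ) ^ 2 * σ * (Real.exp (2 * A) * Real.exp (v i) ^ 2) * Q4 := by
            apply mul_le_mul_of_nonneg_right _ hQ40
            apply mul_le_mul_of_nonneg_left e2
            positivity
          _ = _ := by ring
      exact le_of_mul_le_mul_left h5 hpos
    have h6 : 8 * σ * Real.exp (2 * A) ≤ 64 ^ k * θ := by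
      have e3 : Real.exp (2 * A) = Real.exp (6 * A) * θ := by
        rw [hθ, ← Real.exp_add]
        congr 1
        ring
      rw [e3]
      calc _ = (8 * σ * Real.exp (6 * A)) * θ := by ring
        _ ≤ _ := mul_le_mul_of_nonneg_right hk64 (Real.exp_pos _).le
    have h7 : (64 : ℝ) ^ k * QR ≤ 64 ^ k * (θ * Q8) := by
      calc _ ≤ 8 * σ * Real.exp (2 * A) * Q4 := h4
        _ ≤ 64 ^ k * θ * Q4 := mul_le_mul_of_nonneg_right h6 hQ40
        _ ≤ 64 ^ k * θ * Q8 := mul_le_mul_of_nonneg_left hQ48 (by positivity)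
        _ = _ := by ring
    exact le_of_mul_le_mul_left h7 (by positivity)
  have hm₀R : m₀ ≤ i + k := by omega
  have hm₀R' : m₀ ≤ i + k + 1 := by omega
  have hpR := hpd8 (i + k) hm₀R
  have hpR8 := hpd8 (i + k + 1) hm₀R'
  have hdet := det_cmp (gram f (S ^ R)) (gram f (S ^ (8 * R))) (gram_psd f _)
    (by rw [hb8R]; exact hpR8) (gram_sub f (hsub _ _ (by omega))) θ (Real.exp_pos _)
    (by rw [hθ]; exact Real.exp_le_one_iff.mpr (by linarith)) L.mulVecLin hkey (by omega)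
  rw [hb8R] at hdet
  have hlog : h (i + k) ≤ -(4 * A) * (D - Z.card : ℕ) + h (i + k + 1) := by
    refine (Real.log_le_log hpR.det_pos hdet).trans ?_
    rw [Real.log_mul (pow_pos (Real.exp_pos _) _).ne' hpR8.det_pos.ne', Real.log_pow,
      Real.log_exp]
    show _ ≤ -(4 * A) * ((D - Z.card : ℕ) : ℝ) +
      Real.log (gram f (S ^ (8 ^ (i + k + 1)))).det
    linarith
  have h9 : 4 * A * ((D - Z.card : ℕ) : ℝ) ≤ A * D := by linarith
  have h10 : 4 * ((D - Z.card : ℕ) : ℝ) ≤ D := by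
    have h11 : A * (4 * ((D - Z.card : ℕ) : ℝ)) ≤ A * D := by linarith
    exact le_of_mul_le_mul_left h11 hA0
  have h12 : 4 * (D - Z.card) ≤ D := by exact_mod_cast h10
  omega

end Pool.Agent.SCH
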